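import Pool.Agent.Helper17.NN.Defs

/-!
# Lemmas on correspondences
-/

set_option autoImplicit false

open CategoryTheory CategoryTheory.Limits

namespace Pool.Agent.Helper17.NN

universe u v w

namespace ChowTheory

variable {𝒱 : Type u} [Category.{v} 𝒱] {S : ChowTheory.{u, v, w} 𝒱}

/-! ### The grading by integers -/

theorem mem_grZ_iff {X : 𝒱} {i : ℕ} {a : S.A X} : a ∈ S.grZ X i ↔ a ∈ S.gr X i := by
  rw [grZ, if_pos (Int.natCast_nonneg i)]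
  exact Iff.rfl

theorem mem_grZ {X : 𝒱} {i : ℤ} {a : S.A X} (ha : a ∈ S.grZ X i) :
    a = 0 ∨ ∃ k : ℕ, i = k ∧ a ∈ S.gr X k := by
  rw [grZ] at ha
  split_ifs at ha with h
  · exact Or.inr ⟨i.toNat, (Int.toNat_of_nonneg h).symm, ha⟩
  · exact Or.inl ((Submodule.mem_bot ℚ).1 ha)

theorem grZ_neg {X : 𝒱} {i : ℤ} (hi : i < 0) {a : S.A X} (ha : a ∈ S.grZ X i) : a = 0 := by
  rcases mem_grZ ha with rfl | ⟨k, rfl, _⟩
  · rfl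
  · omega

theorem grZ_large (hS : S.Graded) {X : 𝒱} {i : ℤ} (hi : (S.dim X : ℤ) < i) {a : S.A X}
    (ha : a ∈ S.grZ X i) : a = 0 := by
  rcases mem_grZ ha with rfl | ⟨k, rfl, h⟩
  · rfl
  · exact hS.gr_large (by omega) h

theorem mul_mem_grZ (hS : S.Graded) {X : 𝒱} {i j : ℤ} {a b : S.A X} (ha : a ∈ S.grZ X i)
    (hb : b ∈ S.grZ X j) : a * b ∈ S.grZ X (i + j) := by
  rcases mem_grZ ha with rfl | ⟨k, rfl, h⟩
  · rw [zero_mul]; exact Submodule.zero_mem _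
  · rcases mem_grZ hb with rfl | ⟨l, rfl, h'⟩
    · rw [mul_zero]; exact Submodule.zero_mem _
    · have := hS.mul_mem h h'
      rw [← Nat.cast_add]
      exact mem_grZ_iff.2 this

theorem pull_mem_grZ (hS : S.Functorial) {X Y : 𝒱} (f : X ⟶ Y) {i : ℤ} {a : S.A Y}
    (ha : a ∈ S.grZ Y i) : S.pull f a ∈ S.grZ X i := by
  rcases mem_grZ ha with rfl | ⟨k, rfl, h⟩
  · rw [map_zero]; exact Submodule.zero_mem _
  · exact mem_grZ_iff.2 (hS.pull_gr _ _ _ h)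

theorem push_mem_grZ (hS : S.PushStandard) {X Y : 𝒱} (f : X ⟶ Y) {i j : ℤ} {a : S.A X}
    (h : i + S.dim Y = j + S.dim X) (ha : a ∈ S.grZ X i) : S.push f a ∈ S.grZ Y j := by
  have h1 := hS.push_gr f i a ha
  rwa [show i + S.dim Y - S.dim X = j by omega] at h1

theorem grZ_pow_mul (hS : S.Graded) {X : 𝒱} {L : S.A X} (hL : L ∈ S.gr X 1) (k : ℕ) {i : ℤ}
    {a : S.A X} (ha : a ∈ S.grZ X i) : L ^ k * a ∈ S.grZ X (i + k) := by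
  induction k with
  | zero => simpa using ha
  | succ k ih =>
    rw [pow_succ', mul_assoc]
    have h1 := mul_mem_grZ hS (mem_grZ_iff.2 hL) ih
    rwa [show ((1 : ℕ) : ℤ) + (i + k) = i + ((k + 1 : ℕ) : ℤ) by push_cast; ring] at h1

theorem pow_mem_gr (hS : S.Graded) {X : 𝒱} {L : S.A X} (hL : L ∈ S.gr X 1) (k : ℕ) :
    L ^ k ∈ S.gr X k := by
  have h := grZ_pow_mul hS hL k (mem_grZ_iff.2 (hS.one_mem X))
  rw [mul_one] at h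
  have e : ((0 : ℕ) : ℤ) + k = (k : ℕ) := by push_cast; ring
  rw [e] at h
  exact mem_grZ_iff.1 h

/-- the groups `Ch^i(X)^0` for all integers `i` -/
def hgr (S : ChowTheory.{u, v, w} 𝒱) (X : 𝒱) (i : ℤ) : Submodule ℚ (S.A X) :=
  S.grZ X i ⊓ (S.hom X).restrictScalars ℚ

theorem mem_hgr_iff {X : 𝒱} {i : ℕ} {a : S.A X} : a ∈ S.hgr X i ↔ a ∈ S.homGr X i :=
  and_congr_left fun _ => mem_grZ_iff

theorem hgr_natCast (X : 𝒱) (i : ℕ) : S.hgr X i = S.homGr X i := by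
  ext a
  exact mem_hgr_iff

theorem mem_hgr {X : 𝒱} {i : ℤ} {a : S.A X} (ha : a ∈ S.hgr X i) :
    a = 0 ∨ ∃ k : ℕ, i = k ∧ a ∈ S.homGr X k := by
  rcases mem_grZ ha.1 with rfl | ⟨k, rfl, h⟩
  · exact Or.inl rfl
  · exact Or.inr ⟨k, rfl, h, ha.2⟩

theorem hgr_nonpos (hS : S.Graded) {X : 𝒱} {i : ℤ} (hi : i ≤ 0) {a : S.A X}
    (ha : a ∈ S.hgr X i) : a = 0 := by
  rcases mem_hgr ha with rfl | ⟨k, rfl, h⟩
  · rfl
  · have : k = 0 := by omega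
    subst this
    exact hS.hom_zero h.1 h.2

theorem hgr_large (hS : S.Graded) {X : 𝒱} {i : ℤ} (hi : (S.dim X : ℤ) < i) {a : S.A X}
    (ha : a ∈ S.hgr X i) : a = 0 := grZ_large hS hi ha.1

theorem hgr_pow_mul (hS : S.Graded) {X : 𝒱} {L : S.A X} (hL : L ∈ S.gr X 1) (k : ℕ) {i : ℤ}
    {a : S.A X} (ha : a ∈ S.hgr X i) : L ^ k * a ∈ S.hgr X (i + k) :=
  ⟨grZ_pow_mul hS hL k ha.1, Ideal.mul_mem_left _ _ ha.2⟩

/-- Q1 for all integers -/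
theorem lefschetz_iff_hgr (hS : S.Graded) {X : 𝒱} {L : S.A X} : S.Lefschetz L ↔
    ∀ (i : ℤ) (k : ℕ), (k : ℤ) = S.dim X + 1 - 2 * i →
      Set.BijOn (LinearMap.mulLeft ℚ L ^ k) (S.hgr X i) (S.hgr X (i + k)) := by
  have hpow : ∀ k : ℕ, ⇑(LinearMap.mulLeft ℚ L ^ k) = fun x => L ^ k * x := by
    intro k
    rw [LinearMap.pow_mulLeft]
    rfl
  constructor
  · intro h i k hk
    rw [hpow]
    rcases le_or_gt i 0 with hi | hi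
    · -- both sides are zero
      have h1 : ∀ a ∈ S.hgr X i, a = 0 := fun a ha => hgr_nonpos hS hi ha
      have h2 : ∀ a ∈ S.hgr X (i + k), a = 0 := fun a ha => hgr_large hS (by omega) ha
      refine ⟨?_, ?_, ?_⟩
      · intro a ha
        rw [h1 a ha]
        simp
      · intro a ha b hb _
        rw [h1 a ha, h1 b hb]
      · intro a ha
        exact ⟨0, Submodule.zero_mem _, by simp [h2 a ha]⟩
    · obtain ⟨j, rfl⟩ := Int.eq_ofNat_of_zero_le hi.le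
      have h1 := h j (by omega) (by omega)
      have e : S.dim X + 1 - 2 * j = k := by omega
      have e2 : (j : ℤ) + k = ((S.dim X + 1 - j : ℕ) : ℤ) := by omega
      rw [e] at h1
      rw [e2, hgr_natCast, hgr_natCast]
      exact h1
  · intro h i h1 h2
    have h3 := h i (S.dim X + 1 - 2 * i) (by omega)
    rw [hpow] at h3
    have e2 : (i : ℤ) + ((S.dim X + 1 - 2 * i : ℕ) : ℤ) = ((S.dim X + 1 - i : ℕ) : ℤ) := by omega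
    rwa [e2, hgr_natCast, hgr_natCast] at h3

variable [HasBinaryProducts 𝒱]

/-! ### Linearity -/

/-- the composition as a bilinear map -/
noncomputable def compL (S : ChowTheory.{u, v, w} 𝒱) (X Y Z : 𝒱) :
    S.A (X ⨯ Y) →ₗ[ℚ] S.A (Y ⨯ Z) →ₗ[ℚ] S.A (X ⨯ Z) :=
  ((LinearMap.mul ℚ (S.A (X ⨯ (Y ⨯ Z)))).compl₁₂
    (S.pull (prod.map (𝟙 X) (prod.fst : Y ⨯ Z ⟶ Y))).toLinearMap
    (S.pull (prod.snd : X ⨯ (Y ⨯ Z) ⟶ Y ⨯ Z)).toLinearMap).compr₂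
    (S.push (prod.map (𝟙 X) (prod.snd : Y ⨯ Z ⟶ Z)))

theorem compL_apply {X Y Z : 𝒱} (Γ : S.A (X ⨯ Y)) (Δ : S.A (Y ⨯ Z)) :
    S.compL X Y Z Γ Δ = S.comp Γ Δ := rfl

/-- the action as a bilinear map -/
noncomputable def actL (S : ChowTheory.{u, v, w} 𝒱) (X Y : 𝒱) :
    S.A (X ⨯ Y) →ₗ[ℚ] S.A X →ₗ[ℚ] S.A Y :=
  ((LinearMap.mul ℚ (S.A (X ⨯ Y))).compl₂
    (S.pull (prod.fst : X ⨯ Y ⟶ X)).toLinearMap).compr₂ (S.push (prod.snd : X ⨯ Y ⟶ Y))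

theorem actL_apply {X Y : 𝒱} (Γ : S.A (X ⨯ Y)) (x : S.A X) : S.actL X Y Γ x = S.act Γ x := rfl

theorem comp_add_left {X Y Z : 𝒱} (Γ Γ' : S.A (X ⨯ Y)) (Δ : S.A (Y ⨯ Z)) :
    S.comp (Γ + Γ') Δ = S.comp Γ Δ + S.comp Γ' Δ := by
  simp only [← compL_apply, map_add, LinearMap.add_apply]

theorem comp_add_right {X Y Z : 𝒱} (Γ : S.A (X ⨯ Y)) (Δ Δ' : S.A (Y ⨯ Z)) :
    S.comp Γ (Δ + Δ') = S.comp Γ Δ + S.comp Γ Δ' := by
  simp only [← compL_apply, map_add]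

theorem comp_smul_left {X Y Z : 𝒱} (q : ℚ) (Γ : S.A (X ⨯ Y)) (Δ : S.A (Y ⨯ Z)) :
    S.comp (q • Γ) Δ = q • S.comp Γ Δ := by
  simp only [← compL_apply, map_smul, LinearMap.smul_apply]

theorem comp_smul_right {X Y Z : 𝒱} (q : ℚ) (Γ : S.A (X ⨯ Y)) (Δ : S.A (Y ⨯ Z)) :
    S.comp Γ (q • Δ) = q • S.comp Γ Δ := by
  simp only [← compL_apply, map_smul]

theorem comp_zero_left {X Y Z : 𝒱} (Δ : S.A (Y ⨯ Z)) : S.comp (0 : S.A (X ⨯ Y)) Δ = 0 := by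
  simp only [← compL_apply, map_zero, LinearMap.zero_apply]

theorem comp_zero_right {X Y Z : 𝒱} (Γ : S.A (X ⨯ Y)) : S.comp Γ (0 : S.A (Y ⨯ Z)) = 0 := by
  simp only [← compL_apply, map_zero]

theorem comp_sub_left {X Y Z : 𝒱} (Γ Γ' : S.A (X ⨯ Y)) (Δ : S.A (Y ⨯ Z)) :
    S.comp (Γ - Γ') Δ = S.comp Γ Δ - S.comp Γ' Δ := by
  simp only [← compL_apply, map_sub, LinearMap.sub_apply]

theorem comp_sub_right {X Y Z : 𝒱} (Γ : S.A (X ⨯ Y)) (Δ Δ' : S.A (Y ⨯ Z)) :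
    S.comp Γ (Δ - Δ') = S.comp Γ Δ - S.comp Γ Δ' := by
  simp only [← compL_apply, map_sub]

theorem comp_sum_right {X Y Z : 𝒱} {ι : Type} (F : Finset ι) (Γ : S.A (X ⨯ Y))
    (Δ : ι → S.A (Y ⨯ Z)) : S.comp Γ (∑ j ∈ F, Δ j) = ∑ j ∈ F, S.comp Γ (Δ j) := by
  simp only [← compL_apply, map_sum]

theorem comp_sum_left {X Y Z : 𝒱} {ι : Type} (F : Finset ι) (Γ : ι → S.A (X ⨯ Y))
    (Δ : S.A (Y ⨯ Z)) : S.comp (∑ j ∈ F, Γ j) Δ = ∑ j ∈ F, S.comp (Γ j) Δ := by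
  simp only [← compL_apply, map_sum, LinearMap.sum_apply]

theorem act_sub {X Y : 𝒱} (Γ Γ' : S.A (X ⨯ Y)) (x : S.A X) :
    S.act (Γ - Γ') x = S.act Γ x - S.act Γ' x := by
  simp only [← actL_apply, map_sub, LinearMap.sub_apply]

theorem act_sum {X Y : 𝒱} {ι : Type} (F : Finset ι) (Γ : ι → S.A (X ⨯ Y)) (x : S.A X) :
    S.act (∑ j ∈ F, Γ j) x = ∑ j ∈ F, S.act (Γ j) x := by
  simp only [← actL_apply, map_sum, LinearMap.sum_apply]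

theorem act_smul_left {X Y : 𝒱} (q : ℚ) (Γ : S.A (X ⨯ Y)) (x : S.A X) :
    S.act (q • Γ) x = q • S.act Γ x := by
  simp only [← actL_apply, map_smul, LinearMap.smul_apply]

theorem act_zero {X Y : 𝒱} (Γ : S.A (X ⨯ Y)) : S.act Γ 0 = 0 := by
  simp only [← actL_apply, map_zero]

theorem zero_act {X Y : 𝒱} (x : S.A X) : S.act (0 : S.A (X ⨯ Y)) x = 0 := by
  simp only [← actL_apply, map_zero, LinearMap.zero_apply]

/-! ### Correspondences -/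

theorem act_comp (hS : S.Standard) {X Y Z : 𝒱} (Γ : S.A (X ⨯ Y)) (Δ : S.A (Y ⨯ Z)) (x : S.A X) :
    S.act (S.comp Γ Δ) x = S.act Δ (S.act Γ x) := by
  have h1 : S.act (S.comp Γ Δ) x =
      S.push ((prod.map (𝟙 X) (prod.snd : Y ⨯ Z ⟶ Z)) ≫ prod.snd)
        (S.pull (prod.map (𝟙 X) (prod.snd : Y ⨯ Z ⟶ Z) ≫ prod.fst) x *
          (S.pull (prod.map (𝟙 X) (prod.fst : Y ⨯ Z ⟶ Y)) Γ *
            S.pull (prod.snd : X ⨯ (Y ⨯ Z) ⟶ Y ⨯ Z) Δ)) := by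
    rw [act, comp, mul_comm, ← hS.projection, ← hS.push_comp, ← hS.pull_comp]
  have h2 : S.act Δ (S.act Γ x) =
      S.push ((prod.snd : X ⨯ (Y ⨯ Z) ⟶ Y ⨯ Z) ≫ prod.snd)
        (S.pull (prod.snd : X ⨯ (Y ⨯ Z) ⟶ Y ⨯ Z) Δ *
          (S.pull (prod.map (𝟙 X) (prod.fst : Y ⨯ Z ⟶ Y)) Γ *
            S.pull (prod.map (𝟙 X) (prod.fst : Y ⨯ Z ⟶ Y) ≫ prod.fst) x)) := by
    rw [act, act, hS.base_change, ← hS.projection, ← hS.push_comp,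
      map_mul (S.pull (prod.map (𝟙 X) (prod.fst : Y ⨯ Z ⟶ Y))), ← hS.pull_comp]
  rw [h1, h2, prod.map_snd, prod.map_fst, prod.map_fst, Category.comp_id]
  congr 1
  ring

theorem act_mulBy (hS : S.Standard) {X : 𝒱} (a x : S.A X) : S.act (S.mulBy a) x = a * x := by
  rw [act, mulBy, mul_comm, ← hS.projection, ← hS.push_comp, ← hS.pull_comp,
    prod.lift_fst, prod.lift_snd, hS.push_id, hS.pull_id, mul_comm]

theorem mulBy_eq_fst (hS : S.Standard) {X : 𝒱} (a : S.A X) :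
    S.mulBy a = S.pull (prod.fst : X ⨯ X ⟶ X) a * S.mulBy 1 := by
  rw [mulBy, mulBy, ← hS.projection, ← hS.pull_comp, prod.lift_fst, hS.pull_id, mul_one]

theorem mulBy_eq_snd (hS : S.Standard) {X : 𝒱} (a : S.A X) :
    S.mulBy a = S.mulBy 1 * S.pull (prod.snd : X ⨯ X ⟶ X) a := by
  rw [mul_comm, mulBy, mulBy, ← hS.projection, ← hS.pull_comp, prod.lift_snd, hS.pull_id, mul_one]

theorem comp_fst_mul (hS : S.Standard) {X Y Z : 𝒱} (a : S.A X) (Γ : S.A (X ⨯ Y))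
    (Δ : S.A (Y ⨯ Z)) : S.comp (S.pull (prod.fst : X ⨯ Y ⟶ X) a * Γ) Δ =
      S.pull (prod.fst : X ⨯ Z ⟶ X) a * S.comp Γ Δ := by
  rw [comp, comp, ← hS.projection, map_mul (S.pull (prod.map (𝟙 X) (prod.fst : Y ⨯ Z ⟶ Y))),
    ← hS.pull_comp, ← hS.pull_comp, prod.map_fst, prod.map_fst, mul_assoc]

theorem comp_mul_snd (hS : S.Standard) {X Y Z : 𝒱} (Γ : S.A (X ⨯ Y)) (Δ : S.A (Y ⨯ Z))
    (b : S.A Z) : S.comp Γ (Δ * S.pull (prod.snd : Y ⨯ Z ⟶ Z) b) =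
      S.comp Γ Δ * S.pull (prod.snd : X ⨯ Z ⟶ Z) b := by
  rw [comp, comp, mul_comm (S.push _ _), ← hS.projection,
    map_mul (S.pull (prod.snd : X ⨯ (Y ⨯ Z) ⟶ Y ⨯ Z)), ← hS.pull_comp, ← hS.pull_comp,
    prod.map_snd]
  congr 1
  ring

theorem mulBy_comp (hS : S.Standard) {X Y : 𝒱} (a : S.A X) (Γ : S.A (X ⨯ Y)) :
    S.comp (S.mulBy a) Γ = S.pull (prod.fst : X ⨯ Y ⟶ X) a * Γ := by
  rw [mulBy_eq_fst hS, comp_fst_mul hS, hS.diag_comp]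

theorem comp_mulBy (hS : S.Standard) {X Y : 𝒱} (Γ : S.A (X ⨯ Y)) (b : S.A Y) :
    S.comp Γ (S.mulBy b) = Γ * S.pull (prod.snd : X ⨯ Y ⟶ Y) b := by
  rw [mulBy_eq_snd hS, comp_mul_snd hS, hS.comp_diag]

theorem snd_comp (hS : S.Standard) {X Y Z : 𝒱} (x : S.A Y) (Δ : S.A (Y ⨯ Z)) :
    S.comp (S.pull (prod.snd : X ⨯ Y ⟶ Y) x) Δ =
      S.pull (prod.snd : X ⨯ Z ⟶ Z) (S.act Δ x) := by
  rw [act, hS.base_change', comp, map_mul (S.pull (prod.snd : X ⨯ (Y ⨯ Z) ⟶ Y ⨯ Z)),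
    ← hS.pull_comp, ← hS.pull_comp, prod.map_snd, mul_comm]

theorem comp_mem_grZ (hS : S.Standard) {X Y Z : 𝒱} {Γ : S.A (X ⨯ Y)} {Δ : S.A (Y ⨯ Z)} {a b c : ℤ}
    (hΓ : Γ ∈ S.grZ (X ⨯ Y) a) (hΔ : Δ ∈ S.grZ (Y ⨯ Z) b) (h : a + b = c + S.dim Y) :
    S.comp Γ Δ ∈ S.grZ (X ⨯ Z) c := by
  refine push_mem_grZ hS.toPushStandard _ ?_ (mul_mem_grZ hS.toGraded
    (pull_mem_grZ hS.toFunctorial _ hΓ) (pull_mem_grZ hS.toFunctorial _ hΔ))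
  rw [hS.dim_prod, hS.dim_prod, hS.dim_prod]
  push_cast
  omega

theorem act_mem_grZ (hS : S.Standard) {X Y : 𝒱} {Γ : S.A (X ⨯ Y)} {x : S.A X} {a i c : ℤ}
    (hΓ : Γ ∈ S.grZ (X ⨯ Y) a) (hx : x ∈ S.grZ X i) (h : a + i = c + S.dim X) :
    S.act Γ x ∈ S.grZ Y c := by
  refine push_mem_grZ hS.toPushStandard _ ?_ (mul_mem_grZ hS.toGraded hΓ
    (pull_mem_grZ hS.toFunctorial _ hx))
  rw [hS.dim_prod]
  push_cast
  omega

theorem mulBy_mem_grZ (hS : S.Standard) {X : 𝒱} {a : S.A X} {i : ℤ} (ha : a ∈ S.grZ X i) :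
    S.mulBy a ∈ S.grZ (X ⨯ X) (i + S.dim X) := by
  refine push_mem_grZ hS.toPushStandard _ ?_ ha
  rw [hS.dim_prod]
  push_cast
  omega

theorem comp_hom_right (hS : S.Standard) {X Y Z : 𝒱} (Γ : S.A (X ⨯ Y)) {Δ : S.A (Y ⨯ Z)}
    (hΔ : Δ ∈ S.hom (Y ⨯ Z)) : S.comp Γ Δ ∈ S.hom (X ⨯ Z) :=
  hS.push_hom _ _ (Ideal.mul_mem_left _ _ (hS.pull_hom _ _ hΔ))

theorem comp_hom_left (hS : S.Standard) {X Y Z : 𝒱} {Γ : S.A (X ⨯ Y)} (Δ : S.A (Y ⨯ Z))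
    (hΓ : Γ ∈ S.hom (X ⨯ Y)) : S.comp Γ Δ ∈ S.hom (X ⨯ Z) :=
  hS.push_hom _ _ (Ideal.mul_mem_right _ _ (hS.pull_hom _ _ hΓ))

theorem act_hom (hS : S.Standard) {X Y : 𝒱} (Γ : S.A (X ⨯ Y)) {x : S.A X} (hx : x ∈ S.hom X) :
    S.act Γ x ∈ S.hom Y :=
  hS.push_hom _ _ (Ideal.mul_mem_left _ _ (hS.pull_hom _ _ hx))

theorem act_mem_hgr (hS : S.Standard) {X Y : 𝒱} {Γ : S.A (X ⨯ Y)} {x : S.A X} {a i c : ℤ}
    (hΓ : Γ ∈ S.grZ (X ⨯ Y) a) (hx : x ∈ S.hgr X i) (h : a + i = c + S.dim X) :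
    S.act Γ x ∈ S.hgr Y c :=
  ⟨act_mem_grZ hS hΓ hx.1 h, act_hom hS Γ hx.2⟩

end ChowTheory

end Pool.Agent.Helper17.NN
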