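import Pool.Agent.Helper17.NN.Main

/-!
# Purity of the correspondences homologous to zero, and Q1 for `X × X`
-/

set_option autoImplicit false

open CategoryTheory CategoryTheory.Limits

namespace Pool.Agent.Helper17.NN

universe u v w

section ring

variable {E : Type u} [Ring E] [Algebra ℚ E]

/-- purity in terms of weights and of projectors -/
theorem weight_iff {n : ℕ} {P : ℤ → E} (hP : Proj n P) (a : E) (d : ℤ) :
    diag n P (wt n) * a - a * diag n P (wt n) = (d : ℚ) • a ↔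
      ∀ j k : ℤ, k ≠ j + d → P k * a * P j = 0 := by
  have h0 : ∀ j k : ℤ, P k * (diag n P (wt n) * a - a * diag n P (wt n)) * P j =
      (wt n k - wt n j) • (P k * a * P j) := by
    intro j k
    have e1 : P k * (diag n P (wt n) * a) * P j = wt n k • (P k * a * P j) := by
      rw [← mul_assoc, hP.mul_diag, smul_mul_assoc, smul_mul_assoc]
    have e2 : P k * (a * diag n P (wt n)) * P j = wt n j • (P k * a * P j) := by
      rw [← mul_assoc, mul_assoc (P k * a), hP.diag_mul, mul_smul_comm]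
    rw [mul_sub, sub_mul, e1, e2, ← sub_smul]
  constructor
  · intro h j k hk
    have h1 := h0 j k
    rw [h, mul_smul_comm, smul_mul_assoc, ← sub_eq_zero, ← sub_smul] at h1
    rcases smul_eq_zero.1 h1 with h2 | h2
    · exfalso
      apply hk
      have h3 : (d : ℚ) - (((k - n : ℤ) : ℚ) - ((j - n : ℤ) : ℚ)) = 0 := h2
      have h4 : d - ((k - n : ℤ) - (j - n : ℤ)) = 0 := by exact_mod_cast h3
      omega
    · exact h2
  · intro h
    have hl : ∀ {x y : E}, (∀ k, P k * x = P k * y) → x = y := by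
      intro x y hxy
      rw [← one_mul x, ← one_mul y, ← hP.sum, Finset.sum_mul, Finset.sum_mul]
      exact Finset.sum_congr rfl fun k _ => hxy k
    refine hP.ext fun j => hl fun k => ?_
    rw [← mul_assoc, h0, smul_mul_assoc, mul_smul_comm, ← mul_assoc]
    by_cases hk : k = j + d
    · subst hk
      congr 1
      rw [wt, wt]
      push_cast
      ring
    · rw [h j k hk, smul_zero, smul_zero]

/-- weights and hard Lefschetz: the converse of `LefschetzRing.main` -/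
theorem lef_of_pure {G : ℤ → Submodule ℚ E} {J : Submodule ℚ E} {L Λ : E} {n : ℕ} {P : ℤ → E}
    (mul_mem : ∀ {r s : ℤ} {a b : E}, a ∈ G r → b ∈ G s → a * b ∈ G (r + s))
    (J_left : ∀ (a : E) {b : E}, b ∈ J → a * b ∈ J)
    (J_right : ∀ {a : E} (b : E), a ∈ J → a * b ∈ J)
    (low : ∃ m : ℤ, ∀ r < m, ∀ a ∈ G r, a ∈ J → a = 0)
    (high : ∃ m : ℤ, ∀ r, m < r → ∀ a ∈ G r, a ∈ J → a = 0)
    (hL : L ∈ G 1) (hΛ : Λ ∈ G (-1)) (hP : ∀ j, P j ∈ G 0) (h : Rel ⊥ n P L Λ)
    (hpure : ∀ (r : ℤ) (a : E), a ∈ G r → a ∈ J → ∀ j k : ℤ, k ≠ j + (2 * r - 1) →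
      P k * a * P j = 0) :
    (∀ (r s : ℤ) (a b : E), a ∈ G r → a ∈ J → b ∈ G s → b ∈ J → a * b = 0) ∧
    ∀ (r : ℤ) (k : ℕ), (k : ℤ) = 1 - 2 * r →
      Set.BijOn (anL L ^ k) (G r ⊓ J : Submodule ℚ E) (G (r + k) ⊓ J : Submodule ℚ E) := by
  have hProj : Proj n P :=
    { sum := sub_eq_zero.1 ((Submodule.mem_bot ℚ).1 h.sum)
      idem := fun j => sub_eq_zero.1 ((Submodule.mem_bot ℚ).1 (h.idem j))
      orth := fun j k hjk => (Submodule.mem_bot ℚ).1 (h.orth j k hjk) }
  obtain ⟨r1, r2, r3, r4, -, -, -⟩ := exact_relations hProj (L := L) (Λ := Λ)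
    (fun j => sub_eq_zero.1 ((Submodule.mem_bot ℚ).1 (h.L_P j)))
    (fun j => sub_eq_zero.1 ((Submodule.mem_bot ℚ).1 (h.Λ_P j)))
  set H := diag n P (wt n) with hH
  have hcomm : L * Λ - Λ * L = H := sub_eq_zero.1 ((Submodule.mem_bot ℚ).1 h.comm)
  have hweight : ∀ (r : ℤ) (a : E), a ∈ G r → a ∈ J →
      H * a - a * H = ((2 * r - 1 : ℤ) : ℚ) • a := fun r a ha haJ =>
    (weight_iff hProj a (2 * r - 1)).2 (hpure r a ha haJ)
  refine ⟨?_, ?_⟩
  · intro r s a b ha haJ hb hbJ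
    have h1 := hweight r a ha haJ
    have h2 := hweight s b hb hbJ
    have h3 := hweight (r + s) (a * b) (mul_mem ha hb) (J_right _ haJ)
    have h4 : H * (a * b) - a * b * H = (H * a - a * H) * b + a * (H * b - b * H) := by
      noncomm_ring
    rw [h4, h1, h2, smul_mul_assoc, mul_smul_comm, ← add_smul] at h3
    have h5 : (((2 * r - 1 : ℤ) : ℚ) + ((2 * s - 1 : ℤ) : ℚ) -
        ((2 * (r + s) - 1 : ℤ) : ℚ)) • (a * b) = 0 := by
      rw [sub_smul, h3, sub_self]
    have h6 : (((2 * r - 1 : ℤ) : ℚ) + ((2 * s - 1 : ℤ) : ℚ) - ((2 * (r + s) - 1 : ℤ) : ℚ)) =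
        -1 := by
      push_cast
      ring
    rw [h6, neg_smul, one_smul, neg_eq_zero] at h5
    exact h5
  · intro r k hk
    have hadm : ∀ (r s : ℤ) (a b : E), a ∈ G r → b ∈ (G s ⊓ J : Submodule ℚ E) →
        adL a b ∈ (G (s + r) ⊓ J : Submodule ℚ E) := by
      intro r s a b ha hb
      rw [adL_apply]
      refine ⟨(G _).sub_mem ?_ (mul_mem hb.1 ha), J.sub_mem (J_left _ hb.2) (J_right _ hb.2)⟩
      rw [add_comm]
      exact mul_mem ha hb.1
    have hsl : Pool.Agent.Helper21.HL.Sl2 (fun r => (G r ⊓ J : Submodule ℚ E)) (adL L) (adL Λ)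
        1 :=
      { E_mem := fun i w hw => hadm 1 i L w hL hw
        F_mem := fun i w hw => hadm (-1) i Λ w hΛ hw
        comm := by
          intro i w hw
          rw [← hweight i w hw.1 hw.2, ← hcomm]
          simp only [adL_apply]
          noncomm_ring
        low := by
          obtain ⟨m, hm⟩ := low
          exact ⟨m, fun i hi w hw => hm i hi w hw.1 hw.2⟩
        high := by
          obtain ⟨m, hm⟩ := high
          exact ⟨m, fun i hi w hw => hm i hi w hw.1 hw.2⟩ }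
    have hB := hsl.lefschetz r k hk
    -- the parity
    obtain ⟨κ, hκ⟩ : ∃ κ, κ = diag n P sgn := ⟨_, rfl⟩
    rw [← hκ] at r1 r2
    have hκ0 : κ ∈ G 0 := by
      rw [hκ]
      exact Submodule.sum_mem _ fun j _ => Submodule.smul_mem _ _ (hP j)
    have hanti : L * κ = -(κ * L) := eq_neg_of_add_eq_zero_left r1
    have hmem : ∀ {s : ℤ} {a : E}, a ∈ (G s ⊓ J : Submodule ℚ E) →
        a * κ ∈ (G s ⊓ J : Submodule ℚ E) := by
      intro s a ha
      refine ⟨?_, J_right _ ha.2⟩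
      have := mul_mem ha.1 hκ0
      rwa [add_zero] at this
    have hinv : ∀ a : E, a * κ * κ = a := fun a => by rw [mul_assoc, r2, mul_one]
    have hkey : ∀ a : E, (anL L ^ k) a = (adL L ^ k) (a * κ) * κ := by
      intro a
      rw [← LefschetzRing.anL_pow_mul hanti, hinv]
    refine ⟨?_, ?_, ?_⟩
    · intro a ha
      change (anL L ^ k) a ∈ (G (r + k) ⊓ J : Submodule ℚ E)
      rw [hkey]
      exact hmem (hB.mapsTo (hmem ha))
    · intro a ha b hb hab
      change (anL L ^ k) a = (anL L ^ k) b at hab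
      rw [hkey, hkey] at hab
      have h1 : (adL L ^ k) (a * κ) = (adL L ^ k) (b * κ) := by
        rw [← hinv ((adL L ^ k) (a * κ)), hab, hinv]
      have h2 := hB.injOn (hmem ha) (hmem hb) h1
      rw [← hinv a, h2, hinv]
    · intro c hc
      obtain ⟨a, ha, ha2⟩ := hB.surjOn (hmem hc)
      refine ⟨a * κ, hmem ha, ?_⟩
      rw [hkey, hinv, ha2, hinv]

end ring

namespace ChowTheory

variable {𝒱 : Type u} [Category.{v} 𝒱] {S : ChowTheory.{u, v, w} 𝒱} [HasBinaryProducts 𝒱]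
  (hS : S.Standard) {X : 𝒱} {L : S.A X} {π : ℤ → S.A (X ⨯ X)} {Λ : S.A (X ⨯ X)}

include hS

/-- Q1 for `X × X` without phantoms gives a pure Lefschetz decomposition -/
theorem exists_pure (hL : L ∈ S.gr X 1) (hK : S.StandardB L π Λ) (hN : S.NoPhantom X)
    (hQ : S.Lefschetz (S.box L)) :
    S.ExactPure L π Λ := by
  obtain ⟨P', Λ', hP0, hPJ, hΛ0, hΛJ, hR, hpure, -⟩ := exact_lift (graded hS hL hN hQ)
    (fun j => by
      rw [mem_grCorr, add_zero]
      exact mem_grZ_iff.2 (hK.π_gr j)) hK.Λ_gr (rel_of_standardB hS hK)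
  have hP' : Proj (S.dim X) P' :=
    { sum := sub_eq_zero.1 ((Submodule.mem_bot ℚ).1 hR.sum)
      idem := fun j => sub_eq_zero.1 ((Submodule.mem_bot ℚ).1 (hR.idem j))
      orth := fun j k hjk => (Submodule.mem_bot ℚ).1 (hR.orth j k hjk) }
  refine ⟨P', Λ', hPJ, hΛJ, exact_of_rel hS hP0 hΛ0 hR, ?_⟩
  intro a Γ hΓ j k hjk
  have h0 : toCorr hS X Γ ∈ grCorr hS X (a - S.dim X) := by
    rw [mem_grCorr, add_sub_cancel]
    exact mem_grZ_iff.2 hΓ.1
  have h1 := hpure _ _ h0 hΓ.2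
  have e1 : (2 * ((a - S.dim X : ℤ) : ℚ) - 1 : ℚ) = ((2 * (a - S.dim X) - 1 : ℤ) : ℚ) := by
    push_cast
    ring
  rw [e1] at h1
  have h2 := (weight_iff hP' _ _).1 h1 j k (by omega)
  rw [mul_assoc] at h2
  exact h2

/-- a pure Lefschetz decomposition gives Q1 for `X × X`, without phantoms -/
theorem of_pure (hL : L ∈ S.gr X 1) (hK : S.LefschetzDecomposition (fun a b => a = b) L π Λ)
    (hp : S.PureFor X π) :
    S.NoPhantom X ∧ S.Lefschetz (S.box L) := by
  have hR : Rel ⊥ (S.dim X) (fun j => toCorr hS X (π j)) (toCorr hS X (S.mulBy L))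
      (toCorr hS X Λ) :=
    { sum := (Submodule.mem_bot ℚ).2 (sub_eq_zero.2 hK.sum_π)
      idem := fun j => (Submodule.mem_bot ℚ).2 (sub_eq_zero.2 (hK.π_idem j))
      orth := fun j k hjk => (Submodule.mem_bot ℚ).2 (hK.π_orth j k hjk)
      L_P := fun j => (Submodule.mem_bot ℚ).2 (sub_eq_zero.2 (hK.L_π j))
      Λ_P := fun j => (Submodule.mem_bot ℚ).2 (sub_eq_zero.2 (hK.Λ_π j))
      comm := (Submodule.mem_bot ℚ).2 (sub_eq_zero.2 hK.comm) }
  have hLc : toCorr hS X (S.mulBy L) ∈ grCorr hS X 1 := by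
    have h := mulBy_mem_grZ hS (mem_grZ_iff.2 hL)
    rw [mem_grCorr]
    rwa [show ((1 : ℕ) : ℤ) + S.dim X = S.dim X + 1 by push_cast; ring] at h
  have hP0 : ∀ j, toCorr hS X (π j) ∈ grCorr hS X 0 := fun j => by
    rw [mem_grCorr, add_zero]
    exact mem_grZ_iff.2 (hK.π_gr j)
  obtain ⟨h1, h2⟩ := lef_of_pure (G := grCorr hS X) (J := homCorr hS X)
    (fun {r s a b} ha hb => comp_mem_grZ hS (c := S.dim X + (r + s)) hb ha (by ring))
    (fun a b hb => comp_hom_left hS _ hb) (fun b ha => comp_hom_right hS _ ha)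
    ⟨-S.dim X, fun r hr a ha _ => grZ_neg (S := S) (by omega) ha⟩
    ⟨S.dim X, fun r hr a ha _ => grZ_large (S := S) hS.toGraded (by
      rw [hS.dim_prod]
      push_cast
      omega) ha⟩ hLc hK.Λ_gr hP0 hR (by
      intro r a ha haJ j k hjk
      rcases mem_grZ (S := S) ha with h | ⟨m, hm, h⟩
      · have h' : a = 0 := h
        rw [h', mul_zero, zero_mul]
      · have h3 := hp m a ⟨h, haJ⟩ j k (by omega)
        rw [mul_assoc]
        exact h3)
  refine ⟨?_, ?_⟩
  · intro e he hee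
    have h0 : toCorr hS X e ∈ grCorr hS X 0 := by
      rw [mem_grCorr, add_zero]
      exact mem_grZ_iff.2 he.1
    have h3 : S.comp e e = 0 := h1 0 0 _ _ h0 he.2 h0 he.2
    rw [← hee, h3]
  · rw [lefschetz_iff_hgr hS.toGraded]
    intro i k hk
    rw [hS.dim_prod] at hk
    have h3 := h2 (i - S.dim X) k (by push_cast at hk; omega)
    have hset : ∀ t : ℤ, ((grCorr hS X t ⊓ homCorr hS X : Submodule ℚ (Corr hS X)) :
        Set (Corr hS X)) = (S.hgr (X ⨯ X) (S.dim X + t) : Set (S.A (X ⨯ X))) := fun t => rfl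
    rw [hset, hset, add_sub_cancel, show (S.dim X : ℤ) + (i - S.dim X + k) = i + k by ring] at h3
    refine h3.congr fun a _ => ?_
    rw [LinearMap.pow_mulLeft]
    exact anL_pow hS L k a

/-- **Theorem**, one variety. -/
theorem pure_iff (hL : L ∈ S.gr X 1) (hK : S.StandardB L π Λ) :
    (S.NoPhantom X ∧ S.Lefschetz (S.box L)) ↔ S.ExactPure L π Λ :=
  ⟨fun h => exists_pure hS hL hK h.1 h.2,
    fun ⟨_, _, _, _, h1, h2⟩ => of_pure hS hL h1 h2⟩

end ChowTheory

end Pool.Agent.Helper17.NN
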