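import Mathlib
import Pool.Agent.Helper70.NP.NoPhantom

/-!
# An exact `sl_2`-triple in a graded ring from two hard Lefschetz theorems with different centres

`E` is a ring graded by the integers (`G r`), `J` a two-sided ideal, `L` an element of degree one.
The map `a ↦ L a + a L` satisfies hard Lefschetz on `J` with centre `1 / 2`, there are no idempotents
in `J` of degree zero, and modulo `J` the element `L` is part of an `sl_2`-triple, with a parity. Then
the triple lifts to `E`, and the product of two homogeneous elements of `J` is zero.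
-/

set_option autoImplicit false

namespace Pool.Agent.Helper17.NN

universe u

section module

variable {V : Type u} [AddCommGroup V] [Module ℚ V]

/-- `e` satisfies hard Lefschetz with centre `1 / 2` on the graded space `W`, and `(e, h, f)` are
operators with the relations of `sl_2` -/
structure TwoGradings (W : ℤ → Submodule ℚ V) (e h f : V →ₗ[ℚ] V) : Prop where
  e_mem : ∀ r, ∀ a ∈ W r, e a ∈ W (r + 1)
  f_mem : ∀ r, ∀ a ∈ W r, f a ∈ W (r - 1)
  h_mem : ∀ r, ∀ a ∈ W r, h a ∈ W r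
  ef : ∀ a, e (f a) = f (e a) + h a
  he : ∀ a, h (e a) = e (h a) + (2 : ℚ) • e a
  low : ∃ m : ℤ, ∀ r < m, ∀ a ∈ W r, a = 0
  lef : ∀ (r : ℤ) (k : ℕ), (k : ℤ) = 1 - 2 * r → Set.BijOn (e ^ k) (W r) (W (r + k))

namespace TwoGradings

variable {W : ℤ → Submodule ℚ V} {e h f : V →ₗ[ℚ] V}

theorem e_pow_mem (D : TwoGradings W e h f) (k : ℕ) : ∀ r, ∀ a ∈ W r, (e ^ k) a ∈ W (r + k) := by
  induction k with
  | zero => intro r a ha; simpa using ha
  | succ k ih =>
    intro r a ha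
    rw [pow_succ', Module.End.mul_apply]
    have h1 := D.e_mem _ _ (ih r a ha)
    have e1 : r + (k : ℤ) + 1 = r + ((k + 1 : ℕ) : ℤ) := by push_cast; ring
    rwa [e1] at h1

theorem h_pow (D : TwoGradings W e h f) (k : ℕ) (a : V) :
    h ((e ^ k) a) = (e ^ k) (h a) + (2 * k : ℚ) • (e ^ k) a := by
  induction k with
  | zero => simp
  | succ k ih =>
    rw [pow_succ', Module.End.mul_apply, D.he, ih, map_add, map_smul, Module.End.mul_apply]
    push_cast
    module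

theorem pow_f (D : TwoGradings W e h f) (m : ℕ) (a : V) :
    (e ^ (m + 1)) (f a) = f ((e ^ (m + 1)) a) + (m + 1 : ℚ) • (e ^ m) (h a + (m : ℚ) • a) := by
  induction m with
  | zero => simp [D.ef]
  | succ m ih =>
    have e1 : ∀ b, (e ^ (m + 1)) b = e ((e ^ m) b) := fun b => by
      rw [pow_succ', Module.End.mul_apply]
    have e2 : ∀ b, (e ^ (m + 1 + 1)) b = e ((e ^ (m + 1)) b) := fun b => by
      rw [pow_succ', Module.End.mul_apply]
    rw [e2 (f a), ih, map_add, D.ef, map_smul, ← e1, ← e2, D.h_pow (m + 1) a]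
    simp only [map_add, map_smul]
    push_cast
    module

theorem prim (D : TwoGradings W e h f) {r : ℤ} {k : ℕ} (hk : (k : ℤ) = 1 - 2 * r) {a : V}
    (ha : a ∈ W r) (h0 : (e ^ (k + 1)) a = 0) : h a = (2 * r - 1 : ℚ) • a := by
  have hkq : (k : ℚ) = 1 - 2 * r := by exact_mod_cast hk
  have hDmem : h a + (k : ℚ) • a ∈ W r := (W r).add_mem (D.h_mem r a ha) ((W r).smul_mem _ ha)
  have h1 := D.pow_f k a
  rw [h0, map_zero, zero_add] at h1
  have h2 : (e ^ (k + 2)) (f a) = 0 := by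
    rw [show k + 2 = (k + 1) + 1 from rfl, pow_succ', Module.End.mul_apply, h1, map_smul,
      ← Module.End.mul_apply, ← pow_succ', map_add, map_smul, h0, smul_zero, add_zero]
    have h3 := D.h_pow (k + 1) a
    rw [h0, map_zero, smul_zero, add_zero] at h3
    rw [← h3, smul_zero]
  have h3 : f a = 0 := by
    refine (D.lef (r - 1) (k + 2) (by push_cast; omega)).injOn (D.f_mem r a ha)
      (W (r - 1)).zero_mem ?_
    rw [h2, map_zero]
  rw [h3, map_zero] at h1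
  have h4 : (e ^ k) (h a + (k : ℚ) • a) = 0 := by
    have h5 : (k + 1 : ℚ) ≠ 0 := by positivity
    rcases smul_eq_zero.1 h1.symm with h6 | h6
    · exact absurd h6 h5
    · exact h6
  have h5 : h a + (k : ℚ) • a = 0 := by
    refine (D.lef r k hk).injOn hDmem (W r).zero_mem ?_
    rw [h4, map_zero]
  rw [hkq] at h5
  rw [eq_neg_of_add_eq_zero_left h5]
  module

/-- on `W r` the operator `h` is the multiplication by `2 r - 1` -/
theorem h_eq (D : TwoGradings W e h f) : ∀ r, ∀ a ∈ W r, h a = (2 * r - 1 : ℚ) • a := by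
  obtain ⟨m, hm⟩ := D.low
  -- nonpositive degrees
  have key : ∀ N : ℕ, ∀ r : ℤ, r ≤ 0 → r < m + N → ∀ a ∈ W r, h a = (2 * r - 1 : ℚ) • a := by
    intro N
    induction N with
    | zero =>
      intro r _ hr a ha
      rw [hm r (by simpa using hr) a ha, map_zero, smul_zero]
    | succ N ih =>
      intro r hr hrN a ha
      obtain ⟨k, hk⟩ := Int.eq_ofNat_of_zero_le (show 0 ≤ 1 - 2 * r by omega)
      have h1 := D.lef (r - 1) (k + 2) (by push_cast; omega)
      have h2 : (e ^ (k + 1)) a ∈ W (r - 1 + ((k + 2 : ℕ) : ℤ)) := by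
        have h3 := D.e_pow_mem (k + 1) r a ha
        have e1 : r + ((k + 1 : ℕ) : ℤ) = r - 1 + ((k + 2 : ℕ) : ℤ) := by push_cast; ring
        rwa [e1] at h3
      obtain ⟨b, hb, hb2⟩ := h1.surjOn h2
      have hb3 : e b ∈ W r := by
        have h3 := D.e_mem _ b hb
        rwa [sub_add_cancel] at h3
      have hc : (e ^ (k + 1)) (a - e b) = 0 := by
        rw [map_sub, sub_eq_zero, ← hb2, ← Module.End.mul_apply, ← pow_succ]
      have h4 := D.prim hk.symm ((W r).sub_mem ha hb3) hc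
      have h5 := ih (r - 1) (by omega) (by push_cast at hrN; omega) b hb
      have h6 : h (e b) = (2 * r - 1 : ℚ) • e b := by
        rw [D.he, h5, map_smul]
        push_cast
        module
      have h7 : a = (a - e b) + e b := by abel
      rw [h7, map_add, h4, h6, ← smul_add]
  have key' : ∀ r : ℤ, r ≤ 0 → ∀ a ∈ W r, h a = (2 * r - 1 : ℚ) • a := fun r hr a ha =>
    key (r - m + 1).toNat r hr (by have := Int.self_le_toNat (r - m + 1); omega) a ha
  intro r a ha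
  rcases le_or_gt r 0 with hr | hr
  · exact key' r hr a ha
  · obtain ⟨k, hk⟩ := Int.eq_ofNat_of_zero_le (show 0 ≤ 1 - 2 * (1 - r) by omega)
    have h1 := D.lef (1 - r) k hk.symm
    have e1 : 1 - r + (k : ℤ) = r := by omega
    rw [e1] at h1
    obtain ⟨b, hb, rfl⟩ := h1.surjOn ha
    have h2 := key' (1 - r) (by omega) b hb
    rw [D.h_pow, h2, map_smul]
    have hkq : (k : ℚ) = 2 * r - 1 := by
      have : (k : ℤ) = 2 * r - 1 := by omega
      exact_mod_cast this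
    rw [hkq]
    push_cast
    module

end TwoGradings

end module

variable {E : Type u} [Ring E] [Algebra ℚ E]

/-- the commutator `a ↦ L a - a L` -/
def adL (L : E) : E →ₗ[ℚ] E := LinearMap.mulLeft ℚ L - LinearMap.mulRight ℚ L

/-- the anticommutator `a ↦ L a + a L` -/
def anL (L : E) : E →ₗ[ℚ] E := LinearMap.mulLeft ℚ L + LinearMap.mulRight ℚ L

theorem adL_apply (L a : E) : adL L a = L * a - a * L := rfl

theorem anL_apply (L a : E) : anL L a = L * a + a * L := rfl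

/-- a graded ring with a two-sided ideal and an element `L` of degree one -/
structure LefschetzRing (G : ℤ → Submodule ℚ E) (J : Submodule ℚ E) (L : E) : Prop where
  one_mem : (1 : E) ∈ G 0
  mul_mem : ∀ {r s : ℤ} {a b : E}, a ∈ G r → b ∈ G s → a * b ∈ G (r + s)
  J_left : ∀ (a : E) {b : E}, b ∈ J → a * b ∈ J
  J_right : ∀ {a : E} (b : E), a ∈ J → a * b ∈ J
  L_mem : L ∈ G 1
  low : ∃ m : ℤ, ∀ r < m, ∀ a ∈ G r, a ∈ J → a = 0
  high : ∃ m : ℤ, ∀ r, m < r → ∀ a ∈ G r, a = 0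
  /-- the ideal has no idempotents of degree zero -/
  noPhantom : ∀ e ∈ G 0, e ∈ J → e * e = e → e = 0
  /-- hard Lefschetz with centre `1 / 2` on the ideal for the anticommutator -/
  lef : ∀ (r : ℤ) (k : ℕ), (k : ℤ) = 1 - 2 * r →
    Set.BijOn (anL L ^ k) (G r ⊓ J : Submodule ℚ E) (G (r + k) ⊓ J : Submodule ℚ E)

/-- polynomials in elements congruent modulo `J` -/
theorem aeval_sub_mem {J : Submodule ℚ E} (Jl : ∀ (a : E) {b : E}, b ∈ J → a * b ∈ J)
    (Jr : ∀ {a : E} (b : E), a ∈ J → a * b ∈ J) {a b : E} (hab : a - b ∈ J) (U : Polynomial ℚ) :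
    Polynomial.aeval a U - Polynomial.aeval b U ∈ J := by
  induction U using Polynomial.induction_on with
  | C c => rw [Polynomial.aeval_C, Polynomial.aeval_C, sub_self]; exact J.zero_mem
  | add p q hp hq =>
    rw [map_add, map_add, add_sub_add_comm]
    exact J.add_mem hp hq
  | monomial k c ih =>
    rw [pow_succ, ← mul_assoc, map_mul (Polynomial.aeval a) (Polynomial.C c * Polynomial.X ^ k),
      map_mul (Polynomial.aeval b) (Polynomial.C c * Polynomial.X ^ k), Polynomial.aeval_X,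
      Polynomial.aeval_X]
    have e : ∀ x y : E, x * a - y * b = (x - y) * a + y * (a - b) := fun x y => by noncomm_ring
    rw [e]
    exact J.add_mem (Jr _ ih) (Jl _ hab)

namespace LefschetzRing

variable {G : ℤ → Submodule ℚ E} {J : Submodule ℚ E} {L : E}

theorem zero_mul_mem (D : LefschetzRing G J L) {r : ℤ} {a b : E} (ha : a ∈ G 0) (hb : b ∈ G r) :
    a * b ∈ G r := by
  have := D.mul_mem ha hb
  rwa [zero_add] at this

theorem mul_zero_mem (D : LefschetzRing G J L) {r : ℤ} {a b : E} (ha : a ∈ G r) (hb : b ∈ G 0) :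
    a * b ∈ G r := by
  have := D.mul_mem ha hb
  rwa [add_zero] at this

/-- the anticommutator with `L` is injective on the part of degree zero of the ideal -/
theorem anL_inj (D : LefschetzRing G J L) {a : E} (ha : a ∈ G 0) (hJ : a ∈ J)
    (h : L * a + a * L = 0) : a = 0 := by
  refine (D.lef 0 1 (by norm_num)).injOn ⟨ha, hJ⟩ (Submodule.zero_mem _) ?_
  rw [pow_one, anL_apply, h, map_zero]

/-- a parity modulo `J` lifts to an involution which anticommutes with `L` -/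
theorem exists_parity (D : LefschetzRing G J L) {κ₀ : E} (h0 : κ₀ ∈ G 0)
    (h1 : L * κ₀ + κ₀ * L ∈ J) (h2 : κ₀ * κ₀ - 1 ∈ J) :
    ∃ κ ∈ G 0, κ - κ₀ ∈ J ∧ κ * κ = 1 ∧ L * κ = -(κ * L) := by
  have h3 := D.lef 0 1 (by norm_num)
  have h4 : L * κ₀ + κ₀ * L ∈ (G (0 + ((1 : ℕ) : ℤ)) ⊓ J : Submodule ℚ E) := by
    refine ⟨?_, h1⟩
    have e : (0 : ℤ) + ((1 : ℕ) : ℤ) = 1 := by norm_num
    rw [e]
    exact (G 1).add_mem (D.mul_zero_mem D.L_mem h0) (D.zero_mul_mem h0 D.L_mem)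
  obtain ⟨m, hm, hm2⟩ := h3.surjOn h4
  rw [pow_one, anL_apply] at hm2
  obtain ⟨κ, hκ⟩ : ∃ κ, κ = κ₀ - m := ⟨_, rfl⟩
  have k0 : κ ∈ G 0 := by
    rw [hκ]
    exact (G 0).sub_mem h0 hm.1
  have kJ : κ - κ₀ ∈ J := by
    rw [hκ, sub_sub_cancel_left]
    exact J.neg_mem hm.2
  have anti : L * κ = -(κ * L) := by
    rw [hκ, mul_sub, sub_mul, neg_sub, sub_eq_sub_iff_add_eq_add, ← hm2]
    abel
  have hνJ : κ * κ - 1 ∈ J := by
    have e : κ * κ - 1 = (κ₀ * κ₀ - 1) + (κ - κ₀) * κ + κ₀ * (κ - κ₀) := by noncomm_ring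
    rw [e]
    exact J.add_mem (J.add_mem h2 (D.J_right _ kJ)) (D.J_left _ kJ)
  have hν0 : κ * κ - 1 ∈ G 0 := (G 0).sub_mem (D.zero_mul_mem k0 k0) D.one_mem
  have hcube : κ * (κ * κ - 1) = 0 := by
    refine D.anL_inj (D.zero_mul_mem k0 hν0) (D.J_left _ hνJ) ?_
    have e2 : L * (κ * κ) = κ * κ * L := by
      rw [← mul_assoc, anti, neg_mul, mul_assoc, anti, mul_neg, neg_neg, mul_assoc]
    have e1 : L * (κ * (κ * κ - 1)) = -(κ * (L * (κ * κ) - L)) := by
      rw [← mul_assoc, anti]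
      noncomm_ring
    rw [e1, e2]
    noncomm_ring
  have hδ : 1 - κ * κ = 0 := by
    refine D.noPhantom _ ?_ ?_ ?_
    · rw [← neg_sub]
      exact (G 0).neg_mem hν0
    · rw [← neg_sub]
      exact J.neg_mem hνJ
    · have e : (1 - κ * κ) * (1 - κ * κ) = 1 - κ * κ + κ * (κ * (κ * κ - 1)) := by noncomm_ring
      rw [e, hcube, mul_zero, add_zero]
  exact ⟨κ, k0, kJ, (sub_eq_zero.1 hδ).symm, anti⟩

/-- polynomials in elements of degree zero -/
theorem aeval_mem (D : LefschetzRing G J L) {a : E} (ha : a ∈ G 0) (f : Polynomial ℚ) :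
    Polynomial.aeval a f ∈ G 0 := by
  induction f using Polynomial.induction_on with
  | C c =>
    rw [Polynomial.aeval_C, Algebra.algebraMap_eq_smul_one]
    exact (G 0).smul_mem _ D.one_mem
  | add p q hp hq => rw [map_add]; exact (G 0).add_mem hp hq
  | monomial k c ih =>
    rw [pow_succ, ← mul_assoc, map_mul, Polynomial.aeval_X]
    exact D.zero_mul_mem ih ha

theorem adL_pow_mem (D : LefschetzRing G J L) (k : ℕ) : ∀ r, ∀ a ∈ (G r ⊓ J : Submodule ℚ E),
    (adL L ^ k) a ∈ (G (r + k) ⊓ J : Submodule ℚ E) := by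
  induction k with
  | zero => intro r a ha; simpa using ha
  | succ k ih =>
    intro r a ha
    rw [pow_succ', Module.End.mul_apply, adL_apply]
    have h1 := ih r a ha
    have e : r + ((k + 1 : ℕ) : ℤ) = r + k + 1 := by push_cast; ring
    rw [e]
    refine ⟨?_, J.sub_mem (D.J_left _ h1.2) (D.J_right _ h1.2)⟩
    refine (G _).sub_mem ?_ (D.mul_mem h1.1 D.L_mem)
    have h2 := D.mul_mem D.L_mem h1.1
    rwa [add_comm] at h2

/-- multiplication by the parity turns the anticommutator into the commutator -/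
theorem anL_pow_mul {κ : E} (hκ : L * κ = -(κ * L)) (k : ℕ) (a : E) :
    (anL L ^ k) (a * κ) = (adL L ^ k) a * κ := by
  induction k generalizing a with
  | zero => simp
  | succ k ih =>
    rw [pow_succ, Module.End.mul_apply, pow_succ, Module.End.mul_apply, ← ih, anL_apply, adL_apply,
      sub_mul, mul_assoc a L κ, hκ]
    congr 1
    noncomm_ring

/-- hard Lefschetz for the commutator -/
theorem ad_lef (D : LefschetzRing G J L) {κ : E} (h0 : κ ∈ G 0) (h1 : κ * κ = 1)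
    (hκ : L * κ = -(κ * L)) (r : ℤ) (k : ℕ) (hk : (k : ℤ) = 1 - 2 * r) :
    Set.BijOn (adL L ^ k) (G r ⊓ J : Submodule ℚ E) (G (r + k) ⊓ J : Submodule ℚ E) := by
  have hinv : ∀ a : E, a * κ * κ = a := fun a => by rw [mul_assoc, h1, mul_one]
  have hmem : ∀ {s : ℤ} {a : E}, a ∈ (G s ⊓ J : Submodule ℚ E) →
      a * κ ∈ (G s ⊓ J : Submodule ℚ E) := fun ha => ⟨D.mul_zero_mem ha.1 h0, D.J_right _ ha.2⟩
  have hB := D.lef r k hk
  refine ⟨fun a ha => D.adL_pow_mem k r a ha, ?_, ?_⟩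
  · intro a ha b hb hab
    have h3 : (anL L ^ k) (a * κ) = (anL L ^ k) (b * κ) := by
      rw [anL_pow_mul hκ, anL_pow_mul hκ]
      exact congrArg (· * κ) hab
    have h4 := hB.injOn (hmem ha) (hmem hb) h3
    rw [← hinv a, ← hinv b, h4]
  · intro c hc
    obtain ⟨a, ha, ha2⟩ := hB.surjOn (hmem hc)
    refine ⟨a * κ, hmem ha, ?_⟩
    have h3 : (adL L ^ k) (a * κ) * κ = c * κ := by
      rw [← anL_pow_mul hκ, hinv, ha2]
    rw [← hinv ((adL L ^ k) (a * κ)), h3, hinv]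

section lift

variable (D : LefschetzRing G J L)
  (had : ∀ (r : ℤ) (k : ℕ), (k : ℤ) = 1 - 2 * r →
    Set.BijOn (adL L ^ k) (G r ⊓ J : Submodule ℚ E) (G (r + k) ⊓ J : Submodule ℚ E))

include D had

omit D in
theorem ad_inj {r : ℤ} (k : ℕ) (hk : (k : ℤ) = 1 - 2 * r) {a : E} (ha : a ∈ G r) (hJ : a ∈ J)
    (h : (adL L ^ k) a = 0) : a = 0 := by
  refine (had r k hk).injOn ⟨ha, hJ⟩ (Submodule.zero_mem _) ?_
  rw [h, map_zero]

/-- the exact element `H` with `[H, L] = 2 L` -/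
theorem exists_H {H₀ : E} (h0 : H₀ ∈ G 0) (h1 : H₀ * L - L * H₀ - (2 : ℚ) • L ∈ J) :
    ∃ H ∈ G 0, H - H₀ ∈ J ∧ H * L - L * H = (2 : ℚ) • L := by
  have h2 : H₀ * L - L * H₀ - (2 : ℚ) • L ∈ (G (0 + ((1 : ℕ) : ℤ)) ⊓ J : Submodule ℚ E) := by
    refine ⟨?_, h1⟩
    have e : (0 : ℤ) + ((1 : ℕ) : ℤ) = 1 := by norm_num
    rw [e]
    exact (G 1).sub_mem ((G 1).sub_mem (D.zero_mul_mem h0 D.L_mem) (D.mul_zero_mem D.L_mem h0))
      ((G 1).smul_mem _ D.L_mem)
  obtain ⟨x, hx, hx2⟩ := (had 0 1 (by norm_num)).surjOn h2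
  rw [pow_one, adL_apply] at hx2
  refine ⟨H₀ + x, (G 0).add_mem h0 hx.1, ?_, ?_⟩
  · rw [add_sub_cancel_left]
    exact hx.2
  · have e : (H₀ + x) * L - L * (H₀ + x) = (H₀ * L - L * H₀) - (L * x - x * L) := by noncomm_ring
    rw [e, hx2]
    abel

/-- the exact element `Λ` with `[L, Λ] = H` -/
theorem exists_Lam {H : E} (hH : H ∈ G 0) (hHL : H * L - L * H = (2 : ℚ) • L) {Λ₀ : E}
    (h0 : Λ₀ ∈ G (-1)) (h1 : L * Λ₀ - Λ₀ * L - H ∈ J)
    (h2 : H * Λ₀ - Λ₀ * H + (2 : ℚ) • Λ₀ ∈ J) {κ : E} (k0 : κ ∈ G 0) (kk : κ * κ = 1)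
    (anti : L * κ = -(κ * L)) (kH : κ * H - H * κ ∈ J) (kΛ : κ * Λ₀ + Λ₀ * κ ∈ J)
    {U : Polynomial ℚ} (hU : Polynomial.aeval H U - κ ∈ J) :
    ∃ Λ ∈ G (-1), Λ - Λ₀ ∈ J ∧ L * Λ - Λ * L = H ∧
      H * Λ - Λ * H + (2 : ℚ) • Λ = 0 := by
  have hG : ∀ {r s : ℤ} {a b : E}, a ∈ G r → b ∈ G s → r + s = 0 → a * b ∈ G 0 := by
    intro r s a b ha hb hrs
    have := D.mul_mem ha hb
    rwa [hrs] at this
  -- the error term
  obtain ⟨z, hz⟩ : ∃ z, z = L * Λ₀ - Λ₀ * L - H := ⟨_, rfl⟩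
  rw [← hz] at h1
  have hz0 : z ∈ G 0 := by
    rw [hz]
    exact (G 0).sub_mem ((G 0).sub_mem (hG D.L_mem h0 (by norm_num))
      (hG h0 D.L_mem (by norm_num))) hH
  have h3 : (adL L ^ 2) z ∈ (G (-1 + ((3 : ℕ) : ℤ)) ⊓ J : Submodule ℚ E) := by
    have h4 := D.adL_pow_mem 2 0 z ⟨hz0, h1⟩
    have e : (0 : ℤ) + ((2 : ℕ) : ℤ) = -1 + ((3 : ℕ) : ℤ) := by norm_num
    rwa [e] at h4
  obtain ⟨l, hl, hl2⟩ := (had (-1) 3 (by norm_num)).surjOn h3
  obtain ⟨Λ, hΛ⟩ : ∃ Λ, Λ = Λ₀ - l := ⟨_, rfl⟩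
  obtain ⟨p, hp⟩ : ∃ p, p = z - adL L l := ⟨_, rfl⟩
  have hLl : adL L l ∈ (G 0 ⊓ J : Submodule ℚ E) := by
    have h4 := D.adL_pow_mem 1 (-1) l hl
    have e : (-1 : ℤ) + ((1 : ℕ) : ℤ) = 0 := by norm_num
    rwa [e, pow_one] at h4
  have hp0 : p ∈ G 0 := by
    rw [hp]
    exact (G 0).sub_mem hz0 hLl.1
  have hpJ : p ∈ J := by
    rw [hp]
    exact J.sub_mem h1 hLl.2
  have hΛ0 : Λ ∈ G (-1) := by
    rw [hΛ]
    exact (G (-1)).sub_mem h0 hl.1
  have hLΛ : L * Λ - Λ * L = H + p := by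
    rw [hp, hz, hΛ, adL_apply]
    noncomm_ring
  have hp2 : (adL L ^ 2) p = 0 := by
    rw [hp, map_sub, ← hl2, ← Module.End.mul_apply, ← pow_succ, sub_self]
  obtain ⟨w, hw⟩ : ∃ w, w = L * p - p * L := ⟨_, rfl⟩
  have hLw : L * w - w * L = 0 := by
    have h4 := hp2
    rw [pow_two, Module.End.mul_apply, adL_apply, adL_apply, ← hw] at h4
    exact h4
  -- `[H, Λ] = - 2 Λ`
  have hμ0 : H * Λ - Λ * H + (2 : ℚ) • Λ ∈ G (-1) :=
    (G (-1)).add_mem ((G (-1)).sub_mem (D.zero_mul_mem hH hΛ0) (D.mul_zero_mem hΛ0 hH))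
      ((G (-1)).smul_mem _ hΛ0)
  have hμJ : H * Λ - Λ * H + (2 : ℚ) • Λ ∈ J := by
    have e : H * Λ - Λ * H + (2 : ℚ) • Λ = (H * Λ₀ - Λ₀ * H + (2 : ℚ) • Λ₀) - H * l + l * H -
        (2 : ℚ) • l := by
      rw [hΛ, smul_sub]
      noncomm_ring
    rw [e]
    exact J.sub_mem (J.add_mem (J.sub_mem h2 (D.J_left _ hl.2)) (D.J_right _ hl.2))
      (J.smul_mem _ hl.2)
  have hLH : L * H = H * L - (2 : ℚ) • L := by
    rw [← hHL]; abel
  have hΛL : Λ * L = L * Λ - (H + p) := by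
    rw [← hLΛ]; abel
  have hLΛ' : L * Λ = Λ * L + (H + p) := by rw [← hLΛ]; abel
  have hLp : L * p = p * L + w := by rw [hw]; abel
  have hLw' : L * w = w * L := sub_eq_zero.1 hLw
  have hμ1 : adL L (H * Λ - Λ * H + (2 : ℚ) • Λ) = H * p - p * H := by
    have e6 : H * (H + p) - (H + p) * H = H * p - p * H := by
      simp only [mul_add, add_mul]
      abel
    obtain ⟨q, hq⟩ : ∃ q, q = H + p := ⟨_, rfl⟩
    rw [← hq] at hΛL e6 hLΛ
    rw [adL_apply, ← e6]
    have e1 : L * (H * Λ) = H * (L * Λ) - (2 : ℚ) • (L * Λ) := by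
      rw [← mul_assoc, hLH, sub_mul, mul_assoc, smul_mul_assoc]
    have e2 : Λ * H * L = Λ * (L * H) + (2 : ℚ) • (Λ * L) := by
      rw [hLH, mul_sub, mul_smul_comm, mul_assoc]; abel
    have e3 : H * Λ * L = H * (L * Λ) - H * q := by
      rw [mul_assoc, hΛL, mul_sub]
    have e4 : L * (Λ * H) = Λ * (L * H) + q * H := by
      have e5 : L * Λ = Λ * L + q := by rw [← hLΛ]; abel
      rw [← mul_assoc, e5, add_mul, mul_assoc]
    rw [mul_add, mul_sub, e1, e4, add_mul, sub_mul, e2, e3, mul_smul_comm, smul_mul_assoc]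
    abel
  have hHpw : adL L (H * p - p * H) = H * w - w * H - (2 : ℚ) • w := by
    rw [adL_apply]
    have e1 : L * (H * p) = H * (p * L) + H * w - (2 : ℚ) • (p * L + w) := by
      rw [← mul_assoc, hLH, sub_mul, mul_assoc, smul_mul_assoc, hLp, mul_add]
    have e2 : L * (p * H) = p * (L * H) + w * H := by
      rw [← mul_assoc, hLp, add_mul, mul_assoc]
    have e3 : p * H * L = p * (L * H) + (2 : ℚ) • (p * L) := by
      rw [hLH, mul_sub, mul_smul_comm, mul_assoc]; abel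
    rw [mul_sub, sub_mul, e1, e2, e3, mul_assoc, smul_add]
    abel
  have hHw0 : adL L (H * w - w * H - (2 : ℚ) • w) = 0 := by
    rw [adL_apply]
    have e1 : L * (H * w) = H * (w * L) - (2 : ℚ) • (w * L) := by
      rw [← mul_assoc, hLH, sub_mul, mul_assoc, smul_mul_assoc, hLw']
    have e2 : L * (w * H) = w * (L * H) := by
      rw [← mul_assoc, hLw', mul_assoc]
    have e3 : w * H * L = w * (L * H) + (2 : ℚ) • (w * L) := by
      rw [hLH, mul_sub, mul_smul_comm, mul_assoc]; abel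
    rw [mul_sub, mul_sub, sub_mul, sub_mul, e1, e2, e3, mul_smul_comm, smul_mul_assoc, hLw',
      mul_assoc]
    abel
  have hμ : H * Λ - Λ * H + (2 : ℚ) • Λ = 0 := by
    refine ad_inj had 3 (by norm_num) hμ0 hμJ ?_
    rw [pow_succ, Module.End.mul_apply, hμ1, pow_succ, Module.End.mul_apply, hHpw, pow_one, hHw0]
  have hHp : H * p - p * H = 0 := by rw [← hμ1, hμ, map_zero]
  have hHw : H * w - w * H = (2 : ℚ) • w := by
    rw [hHp, map_zero] at hHpw
    exact sub_eq_zero.1 hHpw.symm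
  -- `[Λ, p] = 0`
  have hτ0 : Λ * p - p * Λ ∈ G (-1) := (G (-1)).sub_mem (D.mul_zero_mem hΛ0 hp0)
    (D.zero_mul_mem hp0 hΛ0)
  have hτJ : Λ * p - p * Λ ∈ J := J.sub_mem (D.J_left _ hpJ) (D.J_right _ hpJ)
  have hHp' : H * p = p * H := sub_eq_zero.1 hHp
  have hτ1 : adL L (Λ * p - p * Λ) = Λ * w - w * Λ := by
    rw [adL_apply]
    have e1 : L * (Λ * p) = Λ * (p * L) + Λ * w + (H + p) * p := by
      rw [← mul_assoc, hLΛ', add_mul, mul_assoc, hLp, mul_add]
    have e2 : L * (p * Λ) = p * (Λ * L) + p * (H + p) + w * Λ := by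
      rw [← mul_assoc, hLp, add_mul, mul_assoc, hLΛ', mul_add]
    rw [mul_sub, sub_mul, e1, e2, mul_assoc, mul_assoc]
    have e7 : (H + p) * p = p * (H + p) := by rw [add_mul, mul_add, hHp']
    rw [e7]
    abel
  have hτ2 : adL L (Λ * w - w * Λ) = (2 : ℚ) • w + (p * w - w * p) := by
    rw [adL_apply]
    have e1 : L * (Λ * w) = Λ * (w * L) + (H + p) * w := by
      rw [← mul_assoc, hLΛ', add_mul, mul_assoc, hLw']
    have e2 : L * (w * Λ) = w * (Λ * L) + w * (H + p) := by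
      rw [← mul_assoc, hLw', mul_assoc, hLΛ', mul_add]
    rw [mul_sub, sub_mul, e1, e2, mul_assoc, mul_assoc, ← hHw]
    simp only [mul_add, add_mul]
    abel
  have hτ3 : adL L ((2 : ℚ) • w + (p * w - w * p)) = 0 := by
    rw [adL_apply]
    have e1 : L * (p * w) = p * (w * L) + w * w := by
      rw [← mul_assoc, hLp, add_mul, mul_assoc, hLw']
    have e2 : L * (w * p) = w * (p * L) + w * w := by
      rw [← mul_assoc, hLw', mul_assoc, hLp, mul_add]
    rw [mul_add, mul_sub, add_mul, sub_mul, e1, e2, mul_smul_comm, smul_mul_assoc, hLw', mul_assoc,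
      mul_assoc]
    abel
  have hτ : Λ * p - p * Λ = 0 := by
    refine ad_inj had 3 (by norm_num) hτ0 hτJ ?_
    rw [pow_succ, Module.End.mul_apply, hτ1, pow_succ, Module.End.mul_apply, hτ2, pow_one, hτ3]
  have hΛw : Λ * w = w * Λ := by
    rw [hτ, map_zero] at hτ1
    exact sub_eq_zero.1 hτ1.symm
  -- `[p, w] = - 2 w`
  have hpw : p * w - w * p = -((2 : ℚ) • w) := by
    have h4 : (2 : ℚ) • w + (p * w - w * p) = 0 := by
      rw [← hτ2, hΛw, sub_self, map_zero]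
    exact (neg_eq_of_add_eq_zero_right h4).symm
  -- the parity commutes with `H` and anticommutes with `Λ`
  have kLκ : ∀ a : E, L * (κ * a) = -(κ * (L * a)) := fun a => by
    rw [← mul_assoc, anti, neg_mul, mul_assoc]
  have hkH : κ * H = H * κ := by
    refine sub_eq_zero.1 (D.anL_inj ((G 0).sub_mem (D.zero_mul_mem k0 hH)
      (D.zero_mul_mem hH k0)) kH ?_)
    have e1 : L * (H * κ) = -(H * κ * L) + (2 : ℚ) • (κ * L) := by
      rw [← mul_assoc, hLH, sub_mul, mul_assoc H L κ, anti, smul_mul_assoc, anti, mul_neg,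
        smul_neg, mul_assoc]
      abel
    have e2 : κ * H * L = κ * (L * H) + (2 : ℚ) • (κ * L) := by
      rw [hLH, mul_sub, mul_smul_comm, mul_assoc]; abel
    rw [mul_sub, sub_mul, kLκ, e1, e2]
    abel
  have kp : κ * p - p * κ = 0 ∧ κ * Λ + Λ * κ = 0 := by
    have hc0 : κ * Λ + Λ * κ ∈ G (-1) := (G (-1)).add_mem (D.zero_mul_mem k0 hΛ0)
      (D.mul_zero_mem hΛ0 k0)
    have hcJ : κ * Λ + Λ * κ ∈ J := by
      have e : κ * Λ + Λ * κ = (κ * Λ₀ + Λ₀ * κ) - κ * l - l * κ := by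
        rw [hΛ]
        noncomm_ring
      rw [e]
      exact J.sub_mem (J.sub_mem kΛ (D.J_left _ hl.2)) (D.J_right _ hl.2)
    have m1 : anL L (κ * Λ + Λ * κ) = -(κ * p - p * κ) := by
      rw [anL_apply]
      have e1 : L * (Λ * κ) = Λ * (L * κ) + H * κ + p * κ := by
        rw [← mul_assoc, hLΛ', add_mul, mul_assoc, add_mul]
        abel
      have e2 : κ * Λ * L = κ * (L * Λ) - κ * H - κ * p := by
        rw [mul_assoc, hΛL, mul_sub, mul_add]
        abel
      rw [mul_add, add_mul, kLκ, e1, e2, mul_assoc Λ κ L, anti, hkH]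
      noncomm_ring
    have m2 : anL L (-(κ * p - p * κ)) = κ * w + w * κ := by
      rw [anL_apply]
      have e1 : L * (p * κ) = -(p * (κ * L)) + w * κ := by
        rw [← mul_assoc, hLp, add_mul, mul_assoc, anti, mul_neg]
      have e2 : κ * p * L = κ * (L * p) - κ * w := by
        rw [hLp, mul_add, mul_assoc]
        abel
      rw [mul_neg, neg_mul, mul_sub, sub_mul, kLκ, e1, e2, mul_assoc p κ L]
      abel
    have m3 : anL L (κ * w + w * κ) = 0 := by
      rw [anL_apply]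
      have e1 : L * (w * κ) = -(w * (κ * L)) := by
        rw [← mul_assoc, hLw', mul_assoc, anti, mul_neg]
      have e2 : κ * w * L = κ * (L * w) := by rw [hLw', mul_assoc]
      rw [mul_add, add_mul, kLκ, e1, e2, mul_assoc w κ L]
      abel
    have hc : κ * Λ + Λ * κ = 0 := by
      refine (D.lef (-1) 3 (by norm_num)).injOn ⟨hc0, hcJ⟩ (Submodule.zero_mem _) ?_
      rw [map_zero, pow_succ, Module.End.mul_apply, m1, pow_succ, Module.End.mul_apply, m2,
        pow_one, m3]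
    rw [hc, map_zero] at m1
    exact ⟨neg_eq_zero.1 m1.symm, hc⟩
  have kp' : κ * p = p * κ := sub_eq_zero.1 kp.1
  have kw : κ * w = -(w * κ) := by
    rw [hw, mul_sub, sub_mul, ← mul_assoc, ← mul_assoc κ p L, kp']
    have e1 : κ * L = -(L * κ) := by rw [anti, neg_neg]
    rw [e1, neg_mul, mul_assoc L κ p, kp', mul_assoc p κ L, e1]
    noncomm_ring
  -- the exact triple `(L - w / 2, H + p, Λ)`
  have hw1 : w ∈ G 1 := by
    rw [hw]
    exact (G 1).sub_mem (D.mul_zero_mem D.L_mem hp0) (D.zero_mul_mem hp0 D.L_mem)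
  have hL'1 : L - (1 / 2 : ℚ) • w ∈ G 1 := (G 1).sub_mem D.L_mem ((G 1).smul_mem _ hw1)
  obtain ⟨N, hN⟩ : ∃ N : ℕ, (L - (1 / 2 : ℚ) • w) ^ N = 0 := by
    obtain ⟨m, hm⟩ := D.high
    have hpow : ∀ N : ℕ, (L - (1 / 2 : ℚ) • w) ^ N ∈ G N := by
      intro N
      induction N with
      | zero => simpa using D.one_mem
      | succ N ih =>
        rw [pow_succ]
        have := D.mul_mem ih hL'1
        exact_mod_cast this
    refine ⟨(m + 1).toNat, hm _ ?_ _ (hpow _)⟩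
    have := Int.self_le_toNat (m + 1)
    omega
  have hw0 : w = 0 := by
    refine Pool.Agent.Helper70.NP.eq_zero_of_anticommute (G 0 ⊓ J)
      (fun a ha b hb => ⟨D.zero_mul_mem ha.1 hb.1, D.J_left _ hb.2⟩)
      (fun e he hee => D.noPhantom e he.1 he.2 hee)
      (e := L - (1 / 2 : ℚ) • w) (h := H + p) (f := Λ) (κ := κ) (N := N) (U := U)
      ?_ ?_ ?_ hN kk ?_ ?_ kw (fun a ha => ⟨D.zero_mul_mem k0 ha.1, D.J_left _ ha.2⟩) ?_
    · rw [sub_mul, mul_sub, smul_mul_assoc, mul_smul_comm, hΛw, ← hLΛ]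
      abel
    · have e1 : (H + p) * (L - (1 / 2 : ℚ) • w) - (L - (1 / 2 : ℚ) • w) * (H + p) =
          (H * L - L * H) - (L * p - p * L) - (1 / 2 : ℚ) • (H * w - w * H) -
            (1 / 2 : ℚ) • (p * w - w * p) := by
        simp only [add_mul, mul_add, sub_mul, mul_sub, smul_mul_assoc, mul_smul_comm, smul_sub]
        module
      rw [e1, hHL, ← hw, hHw, hpw]
      module
    · have e1 : (H + p) * Λ - Λ * (H + p) = (H * Λ - Λ * H) - (Λ * p - p * Λ) := by noncomm_ring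
      rw [e1, hτ, sub_zero]
      exact eq_neg_of_add_eq_zero_left hμ
    · rw [mul_add, add_mul, hkH, kp']
    · have e1 : (H + p) * w - w * (H + p) = (H * w - w * H) + (p * w - w * p) := by noncomm_ring
      rw [hHw, hpw, add_neg_cancel] at e1
      exact (sub_eq_zero.1 e1).symm
    · have h5 : Polynomial.aeval (H + p) U - Polynomial.aeval H U ∈ J :=
        aeval_sub_mem (fun a _ hb => D.J_left a hb) (fun b ha => D.J_right b ha)
          (by rw [add_sub_cancel_left]; exact hpJ) U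
      have e1 : Polynomial.aeval (H + p) U - κ =
          (Polynomial.aeval (H + p) U - Polynomial.aeval H U) +
            (Polynomial.aeval H U - κ) := by abel
      rw [e1]
      refine ⟨?_, J.add_mem h5 hU⟩
      rw [← e1]
      refine (G 0).sub_mem ?_ k0
      exact D.aeval_mem ((G 0).add_mem hH hp0) U
  have hp00 : p = 0 := by
    refine ad_inj had 1 (by norm_num) hp0 hpJ ?_
    rw [pow_one, adL_apply, ← hw]
    exact hw0
  refine ⟨Λ, hΛ0, ?_, ?_, hμ⟩
  · rw [hΛ, sub_sub_cancel_left]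
    exact J.neg_mem hl.2
  · rw [hLΛ, hp00, add_zero]

/-- **purity**: `[H, a] = (2 r - 1) a` for `a` in the ideal, of degree `r` -/
theorem ad_H {H Λ : E} (hH : H ∈ G 0) (hHL : H * L - L * H = (2 : ℚ) • L)
    (hΛ : Λ ∈ G (-1)) (hLΛ : L * Λ - Λ * L = H) (r : ℤ) (a : E) (ha : a ∈ G r)
    (haJ : a ∈ J) : H * a - a * H = (2 * r - 1 : ℚ) • a := by
  have T : TwoGradings (fun r => (G r ⊓ J : Submodule ℚ E)) (adL L) (adL H) (adL Λ) :=
    { e_mem := by
        intro r a ha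
        have h1 := D.adL_pow_mem 1 r a ha
        simpa using h1
      f_mem := by
        intro r a ha
        rw [adL_apply]
        refine ⟨(G _).sub_mem ?_ (D.mul_mem ha.1 hΛ), J.sub_mem (D.J_left _ ha.2)
          (D.J_right _ ha.2)⟩
        have h1 := D.mul_mem hΛ ha.1
        rwa [add_comm] at h1
      h_mem := by
        intro r a ha
        rw [adL_apply]
        exact ⟨(G _).sub_mem (D.zero_mul_mem hH ha.1) (D.mul_zero_mem ha.1 hH),
          J.sub_mem (D.J_left _ ha.2) (D.J_right _ ha.2)⟩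
      ef := by
        intro a
        simp only [adL_apply]
        rw [← hLΛ]
        noncomm_ring
      he := by
        intro a
        simp only [adL_apply]
        have h1 : H * L = L * H + (2 : ℚ) • L := by rw [← hHL]; abel
        have e1 : H * (L * a) = L * (H * a) + (2 : ℚ) • (L * a) := by
          rw [← mul_assoc, h1, add_mul, mul_assoc, smul_mul_assoc]
        have e2 : a * H * L = a * L * H + (2 : ℚ) • (a * L) := by
          rw [mul_assoc, h1, mul_add, mul_smul_comm, mul_assoc]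
        rw [mul_sub, sub_mul, mul_sub, sub_mul, e1, e2, smul_sub]
        noncomm_ring
      low := by
        obtain ⟨m, hm⟩ := D.low
        exact ⟨m, fun r hr a ha => hm r hr a ha.1 ha.2⟩
      lef := had }
  exact T.h_eq r a ⟨ha, haJ⟩

end lift

/-- **Theorem.** If `L` is modulo `J` part of an `sl_2`-triple with parity, then it is part of an exact
`sl_2`-triple, `[H, a] = (2 r - 1) a` for `a` in the ideal, of degree `r`, and the product of two
homogeneous elements of the ideal is zero. -/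
theorem main (D : LefschetzRing G J L) {κ₀ H₀ Λ₀ : E} (hκ : κ₀ ∈ G 0)
    (hκ1 : L * κ₀ + κ₀ * L ∈ J) (hκ2 : κ₀ * κ₀ - 1 ∈ J) (hH : H₀ ∈ G 0)
    (hH1 : H₀ * L - L * H₀ - (2 : ℚ) • L ∈ J) (hΛ : Λ₀ ∈ G (-1))
    (hΛ1 : L * Λ₀ - Λ₀ * L - H₀ ∈ J) (hΛ2 : H₀ * Λ₀ - Λ₀ * H₀ + (2 : ℚ) • Λ₀ ∈ J)
    (hκH : κ₀ * H₀ - H₀ * κ₀ ∈ J) (hκΛ : κ₀ * Λ₀ + Λ₀ * κ₀ ∈ J) {U : Polynomial ℚ}
    (hU : Polynomial.aeval H₀ U - κ₀ ∈ J) :
    ∃ H ∈ G 0, ∃ Λ ∈ G (-1), H - H₀ ∈ J ∧ Λ - Λ₀ ∈ J ∧ H * L - L * H = (2 : ℚ) • L ∧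
      L * Λ - Λ * L = H ∧ H * Λ - Λ * H + (2 : ℚ) • Λ = 0 ∧
      (∀ (r : ℤ) (a : E), a ∈ G r → a ∈ J → H * a - a * H = (2 * r - 1 : ℚ) • a) ∧
      ∀ (r s : ℤ) (a b : E), a ∈ G r → a ∈ J → b ∈ G s → b ∈ J → a * b = 0 := by
  obtain ⟨κ, k0, kJ, kk, anti⟩ := D.exists_parity hκ hκ1 hκ2
  have had := D.ad_lef k0 kk anti
  obtain ⟨H, hH0, hHJ, hHL⟩ := D.exists_H had hH hH1
  have e1 : L * Λ₀ - Λ₀ * L - H ∈ J := by
    have e : L * Λ₀ - Λ₀ * L - H = (L * Λ₀ - Λ₀ * L - H₀) - (H - H₀) := by abel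
    rw [e]
    exact J.sub_mem hΛ1 hHJ
  have e2 : H * Λ₀ - Λ₀ * H + (2 : ℚ) • Λ₀ ∈ J := by
    have e : H * Λ₀ - Λ₀ * H + (2 : ℚ) • Λ₀ = (H₀ * Λ₀ - Λ₀ * H₀ + (2 : ℚ) • Λ₀) +
        (H - H₀) * Λ₀ - Λ₀ * (H - H₀) := by noncomm_ring
    rw [e]
    exact J.sub_mem (J.add_mem hΛ2 (D.J_right _ hHJ)) (D.J_left _ hHJ)
  have e3 : κ * H - H * κ ∈ J := by
    have e : κ * H - H * κ = (κ₀ * H₀ - H₀ * κ₀) + (κ - κ₀) * H + κ₀ * (H - H₀) -
        (H - H₀) * κ - H₀ * (κ - κ₀) := by noncomm_ring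
    rw [e]
    exact J.sub_mem (J.sub_mem (J.add_mem (J.add_mem hκH (D.J_right _ kJ)) (D.J_left _ hHJ))
      (D.J_right _ hHJ)) (D.J_left _ kJ)
  have e4 : κ * Λ₀ + Λ₀ * κ ∈ J := by
    have e : κ * Λ₀ + Λ₀ * κ = (κ₀ * Λ₀ + Λ₀ * κ₀) + (κ - κ₀) * Λ₀ + Λ₀ * (κ - κ₀) := by
      noncomm_ring
    rw [e]
    exact J.add_mem (J.add_mem hκΛ (D.J_right _ kJ)) (D.J_left _ kJ)
  have e5 : Polynomial.aeval H U - κ ∈ J := by
    have h5 : Polynomial.aeval H U - Polynomial.aeval H₀ U ∈ J :=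
      aeval_sub_mem (fun a _ hb => D.J_left a hb) (fun b ha => D.J_right b ha) hHJ U
    have e : Polynomial.aeval H U - κ = (Polynomial.aeval H U - Polynomial.aeval H₀ U) +
        (Polynomial.aeval H₀ U - κ₀) - (κ - κ₀) := by abel
    rw [e]
    exact J.sub_mem (J.add_mem h5 hU) kJ
  obtain ⟨Λ, hΛ0, hΛJ, hLΛ, hHΛ⟩ := D.exists_Lam had hH0 hHL hΛ e1 e2 k0 kk anti e3 e4 e5
  have hpure := D.ad_H had hH0 hHL hΛ0 hLΛ
  refine ⟨H, hH0, Λ, hΛ0, hHJ, hΛJ, hHL, hLΛ, hHΛ, hpure, ?_⟩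
  intro r s a b ha haJ hb hbJ
  have h1 := hpure r a ha haJ
  have h2 := hpure s b hb hbJ
  have h3 := hpure (r + s) (a * b) (D.mul_mem ha hb) (D.J_right _ haJ)
  have h4 : H * (a * b) - a * b * H = (H * a - a * H) * b + a * (H * b - b * H) := by noncomm_ring
  rw [h4, h1, h2, smul_mul_assoc, mul_smul_comm, ← add_smul] at h3
  have h5 : ((2 * r - 1 : ℚ) + (2 * s - 1) - (2 * ((r + s : ℤ) : ℚ) - 1)) • (a * b) = 0 := by
    rw [sub_smul, h3, sub_self]
  have h6 : ((2 * r - 1 : ℚ) + (2 * s - 1) - (2 * ((r + s : ℤ) : ℚ) - 1)) = -1 := by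
    push_cast
    ring
  rw [h6, neg_smul, one_smul, neg_eq_zero] at h5
  exact h5

end LefschetzRing

end Pool.Agent.Helper17.NN
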