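import Pool.Agent.Helper17.NN.Basic
import Pool.Agent.Helper17.NN.Ring

/-!
# The ring of correspondences from a variety to itself
-/

set_option autoImplicit false

open CategoryTheory CategoryTheory.Limits

namespace Pool.Agent.Helper17.NN

universe u v w

namespace ChowTheory

variable {𝒱 : Type u} [Category.{v} 𝒱] {S : ChowTheory.{u, v, w} 𝒱} [HasBinaryProducts 𝒱]

/-- the ring of correspondences from `X` to `X`; `a * b` is first `b`, then `a` -/
def Corr (_hS : S.Standard) (X : 𝒱) : Type w := S.A (X ⨯ X)

noncomputable instance (hS : S.Standard) (X : 𝒱) : AddCommGroup (Corr hS X) :=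
  inferInstanceAs (AddCommGroup (S.A (X ⨯ X)))

noncomputable instance (hS : S.Standard) (X : 𝒱) : Ring (Corr hS X) :=
  { (inferInstance : AddCommGroup (Corr hS X)) with
    mul := fun a b => S.comp b a
    one := S.mulBy 1
    left_distrib := fun a b c => comp_add_left (S := S) b c a
    right_distrib := fun a b c => comp_add_right (S := S) c a b
    zero_mul := fun a => comp_zero_right (S := S) a
    mul_zero := fun a => comp_zero_left (S := S) a
    mul_assoc := fun a b c => (hS.comp_assoc c b a).symm
    one_mul := fun a => hS.comp_diag a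
    mul_one := fun a => hS.diag_comp a }

noncomputable instance (hS : S.Standard) (X : 𝒱) : Module ℚ (Corr hS X) :=
  inferInstanceAs (Module ℚ (S.A (X ⨯ X)))

noncomputable instance (hS : S.Standard) (X : 𝒱) : Algebra ℚ (Corr hS X) :=
  Algebra.ofModule (fun q a b => comp_smul_right (S := S) q b a)
    (fun q a b => comp_smul_left (S := S) q b a)

variable (hS : S.Standard) (X : 𝒱)

/-- a cycle on `X × X` as an element of the ring of correspondences -/
def toCorr (a : S.A (X ⨯ X)) : Corr hS X := a

theorem corr_mul (a b : Corr hS X) : a * b = toCorr hS X (S.comp (X := X) (Y := X) (Z := X) b a) :=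
  rfl

theorem corr_one : (1 : Corr hS X) = toCorr hS X (S.mulBy 1) := rfl

/-- the correspondences of degree `r` -/
noncomputable def grCorr (r : ℤ) : Submodule ℚ (Corr hS X) := S.grZ (X ⨯ X) (S.dim X + r)

/-- the correspondences homologous to zero -/
noncomputable def homCorr : Submodule ℚ (Corr hS X) := (S.hom (X ⨯ X)).restrictScalars ℚ

theorem mem_homCorr {a : S.A (X ⨯ X)} : toCorr hS X a ∈ homCorr hS X ↔ a ∈ S.hom (X ⨯ X) := Iff.rfl

theorem mem_grCorr {r : ℤ} {a : S.A (X ⨯ X)} :
    toCorr hS X a ∈ grCorr hS X r ↔ a ∈ S.grZ (X ⨯ X) (S.dim X + r) := Iff.rfl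

variable {X}

/-- the anticommutator with `L` is the multiplication by `L × 1 + 1 × L` -/
theorem anL_pow (L : S.A X) (k : ℕ) (a : S.A (X ⨯ X)) :
    (anL (toCorr hS X (S.mulBy L)) ^ k) (toCorr hS X a) =
      toCorr hS X (S.box L ^ k * a) := by
  induction k with
  | zero =>
    rw [pow_zero, pow_zero, one_mul]
    rfl
  | succ k ih =>
    rw [pow_succ', Module.End.mul_apply, ih, anL_apply]
    have h3 : S.box L =
        S.pull (prod.fst : X ⨯ X ⟶ X) L + S.pull (prod.snd : X ⨯ X ⟶ X) L := by
      rw [box, ex, ex, map_one, map_one, mul_one, one_mul]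
    have key : S.comp (S.box L ^ k * a) (S.mulBy L) +
        S.comp (S.mulBy L) (S.box L ^ k * a) =
          S.box L ^ (k + 1) * a := by
      rw [comp_mulBy hS, mulBy_comp hS, pow_succ', h3]
      ring
    exact key

/-- the ring of correspondences of `X` satisfies the hypotheses of `Ring.lean` -/
theorem graded {L : S.A X} (hL : L ∈ S.gr X 1) (hN : S.NoPhantom X)
    (hQ : S.Lefschetz (S.box L)) :
    LefschetzRing (grCorr hS X) (homCorr hS X) (toCorr hS X (S.mulBy L)) where
  one_mem := by
    have h := mulBy_mem_grZ hS (mem_grZ_iff.2 (hS.one_mem X))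
    rw [corr_one, mem_grCorr]
    rwa [show ((0 : ℕ) : ℤ) + S.dim X = S.dim X + 0 by push_cast; ring] at h
  mul_mem := by
    intro r s a b ha hb
    exact comp_mem_grZ hS (c := S.dim X + (r + s)) hb ha (by ring)
  J_left := fun a b hb => comp_hom_left hS _ hb
  J_right := fun b ha => comp_hom_right hS _ ha
  L_mem := by
    have h := mulBy_mem_grZ hS (mem_grZ_iff.2 hL)
    rw [mem_grCorr]
    rwa [show ((1 : ℕ) : ℤ) + S.dim X = S.dim X + 1 by push_cast; ring] at h
  low := ⟨-S.dim X, fun r hr a ha _ => grZ_neg (S := S) (by omega) ha⟩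
  high := ⟨S.dim X, fun r hr a ha => grZ_large (S := S) hS.toGraded (by
      rw [hS.dim_prod]
      push_cast
      omega) ha⟩
  noPhantom := by
    intro a ha haJ hidem
    have h1 : a ∈ S.homGr (X ⨯ X) (S.dim X) := by
      have h2 : a ∈ S.hgr (X ⨯ X) (S.dim X + 0) := ⟨ha, haJ⟩
      rw [add_zero] at h2
      exact mem_hgr_iff.1 h2
    exact hN a h1 hidem
  lef := by
    intro r k hk
    have h1 := (lefschetz_iff_hgr hS.toGraded).1 hQ (S.dim X + r) k
      (by rw [hS.dim_prod]; push_cast; omega)
    have hset : ∀ t : ℤ, ((grCorr hS X t ⊓ homCorr hS X : Submodule ℚ (Corr hS X)) :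
        Set (Corr hS X)) = (S.hgr (X ⨯ X) (S.dim X + t) : Set (S.A (X ⨯ X))) := fun t => rfl
    rw [hset, hset]
    have hfun : ∀ a : Corr hS X, (anL (toCorr hS X (S.mulBy L)) ^ k) a =
        (LinearMap.mulLeft ℚ (S.box L) ^ k) a := by
      intro a
      rw [LinearMap.pow_mulLeft]
      exact anL_pow hS L k a
    rw [show (S.dim X : ℤ) + r + k = S.dim X + (r + k) by ring] at h1
    exact h1.congr fun a _ => (hfun a).symm

end ChowTheory

end Pool.Agent.Helper17.NN
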