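import Mathlib

/-!
# Rational Chow rings, correspondences, and the conjecture of Bloch and Beilinson over number fields

`ChowTheory 𝒱`: rational Chow rings on a category `𝒱` with products (geometrically connected smooth
projective varieties over a number field), with the cycles homologous to zero, pull-back,
push-forward and ample classes.
`ChowTheory.Standard`: their standard properties. No heights.
-/

set_option autoImplicit false

open CategoryTheory CategoryTheory.Limits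

namespace Pool.Agent.Helper17.NN

universe u v w

/-- Rational Chow rings with homological equivalence, pull-back, push-forward and ample classes. -/
structure ChowTheory (𝒱 : Type u) [Category.{v} 𝒱] where
  /-- the Chow ring with rational coefficients -/
  A : 𝒱 → Type w
  [ring : ∀ X, CommRing (A X)]
  [alg : ∀ X, Algebra ℚ (A X)]
  /-- the dimension -/
  dim : 𝒱 → ℕ
  /-- the cycles of codimension `i` -/
  gr : ∀ X : 𝒱, ℕ → Submodule ℚ (A X)
  /-- the ideal of the cycles homologous to zero -/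
  hom : ∀ X : 𝒱, Ideal (A X)
  /-- pull-back of cycles -/
  pull : ∀ {X Y : 𝒱}, (X ⟶ Y) → (A Y →ₐ[ℚ] A X)
  /-- push-forward of cycles -/
  push : ∀ {X Y : 𝒱}, (X ⟶ Y) → (A X →ₗ[ℚ] A Y)
  /-- classes of ample divisors -/
  Ample : ∀ {X : 𝒱}, A X → Prop

attribute [instance] ChowTheory.ring ChowTheory.alg

namespace ChowTheory

variable {𝒱 : Type u} [Category.{v} 𝒱] (S : ChowTheory.{u, v, w} 𝒱)

/-- the group `Ch^i(X)^0` of cycles of codimension `i` homologous to zero -/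
def homGr (X : 𝒱) (i : ℕ) : Submodule ℚ (S.A X) := S.gr X i ⊓ (S.hom X).restrictScalars ℚ

/-- Beilinson's Q1 for `(X, L)` -/
def Lefschetz {X : 𝒱} (L : S.A X) : Prop :=
  ∀ i : ℕ, 1 ≤ i → 2 * i ≤ S.dim X + 1 →
    Set.BijOn (fun x => L ^ (S.dim X + 1 - 2 * i) * x) (S.homGr X i) (S.homGr X (S.dim X + 1 - i))

/-- products of two cycles homologous to zero on `X` are zero -/
def ProductsVanish (X : 𝒱) : Prop :=
  ∀ i j : ℕ, ∀ x ∈ S.homGr X i, ∀ y ∈ S.homGr X j, x * y = 0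

/-- equality modulo homological equivalence -/
def HomEq {X : 𝒱} (a b : S.A X) : Prop := a - b ∈ S.hom X

/-- the cycles of codimension `i`, for all integers `i` (zero for `i < 0`) -/
def grZ (X : 𝒱) (i : ℤ) : Submodule ℚ (S.A X) := if 0 ≤ i then S.gr X i.toNat else ⊥

/-- properties of the grading by the codimension -/
structure Graded : Prop where
  mul_mem : ∀ {X : 𝒱} {i j : ℕ} {a b : S.A X}, a ∈ S.gr X i → b ∈ S.gr X j → a * b ∈ S.gr X (i + j)
  one_mem : ∀ X : 𝒱, (1 : S.A X) ∈ S.gr X 0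
  /-- `X` is geometrically connected -/
  gr_zero : ∀ {X : 𝒱} {a : S.A X}, a ∈ S.gr X 0 → ∃ q : ℚ, a = algebraMap ℚ (S.A X) q
  /-- a cycle of codimension zero homologous to zero is zero -/
  hom_zero : ∀ {X : 𝒱} {a : S.A X}, a ∈ S.gr X 0 → a ∈ S.hom X → a = 0
  /-- there are no cycles of codimension larger than the dimension -/
  gr_large : ∀ {X : 𝒱} {i : ℕ} {a : S.A X}, S.dim X < i → a ∈ S.gr X i → a = 0

/-- properties of pull-back -/
structure Functorial : Prop where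
  pull_id : ∀ (X : 𝒱) (a : S.A X), S.pull (𝟙 X) a = a
  pull_comp : ∀ {X Y Z : 𝒱} (f : X ⟶ Y) (g : Y ⟶ Z) (a : S.A Z),
    S.pull (f ≫ g) a = S.pull f (S.pull g a)
  pull_gr : ∀ {X Y : 𝒱} (f : X ⟶ Y) (i : ℕ) (a : S.A Y), a ∈ S.gr Y i → S.pull f a ∈ S.gr X i
  pull_hom : ∀ {X Y : 𝒱} (f : X ⟶ Y) (a : S.A Y), a ∈ S.hom Y → S.pull f a ∈ S.hom X

/-- functoriality of push-forward and the projection formula -/
structure PushFunctorial : Prop where
  push_id : ∀ (X : 𝒱) (a : S.A X), S.push (𝟙 X) a = a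
  push_comp : ∀ {X Y Z : 𝒱} (f : X ⟶ Y) (g : Y ⟶ Z) (a : S.A X),
    S.push (f ≫ g) a = S.push g (S.push f a)
  /-- the projection formula -/
  projection : ∀ {X Y : 𝒱} (f : X ⟶ Y) (a : S.A Y) (b : S.A X),
    S.push f (S.pull f a * b) = a * S.push f b

/-- properties of push-forward -/
structure PushStandard : Prop extends S.PushFunctorial where
  /-- push-forward preserves the dimension of cycles -/
  push_gr : ∀ {X Y : 𝒱} (f : X ⟶ Y) (i : ℤ) (a : S.A X), a ∈ S.grZ X i →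
    S.push f a ∈ S.grZ Y (i + S.dim Y - S.dim X)
  push_hom : ∀ {X Y : 𝒱} (f : X ⟶ Y) (a : S.A X), a ∈ S.hom X → S.push f a ∈ S.hom Y

variable [HasBinaryProducts 𝒱]

/-- the external product `x × y`, a cycle on `X × Y` -/
noncomputable def ex {X Y : 𝒱} (x : S.A X) (y : S.A Y) : S.A (X ⨯ Y) :=
  S.pull (prod.fst : X ⨯ Y ⟶ X) x * S.pull (prod.snd : X ⨯ Y ⟶ Y) y

/-- the action `x ↦ pr_2_* (Γ · pr_1^* x)` of a correspondence `Γ` from `X` to `Y` -/
noncomputable def act {X Y : 𝒱} (Γ : S.A (X ⨯ Y)) (x : S.A X) : S.A Y :=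
  S.push (prod.snd : X ⨯ Y ⟶ Y) (Γ * S.pull (prod.fst : X ⨯ Y ⟶ X) x)

/-- the class `L × 1 + 1 × L` on `X × X` -/
noncomputable def box {X : 𝒱} (L : S.A X) : S.A (X ⨯ X) := S.ex L 1 + S.ex 1 L

/-- the composition `p_(13 *) (p_12^* Γ · p_23^* Δ)` (first `Γ`, then `Δ`) of correspondences -/
noncomputable def comp {X Y Z : 𝒱} (Γ : S.A (X ⨯ Y)) (Δ : S.A (Y ⨯ Z)) : S.A (X ⨯ Z) :=
  S.push (prod.map (𝟙 X) (prod.snd : Y ⨯ Z ⟶ Z))
    (S.pull (prod.map (𝟙 X) (prod.fst : Y ⨯ Z ⟶ Y)) Γ *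
      S.pull (prod.snd : X ⨯ (Y ⨯ Z) ⟶ Y ⨯ Z) Δ)

/-- the correspondence which acts as the multiplication by `a`: the cycle `a` on the diagonal -/
noncomputable def mulBy {X : 𝒱} (a : S.A X) : S.A (X ⨯ X) :=
  S.push (prod.lift (𝟙 X) (𝟙 X)) a

/-- composites of correspondences from `X` to `X` homologous to zero vanish -/
def CompositesVanish (X : 𝒱) : Prop :=
  ∀ a b : ℕ, ∀ Γ ∈ S.homGr (X ⨯ X) a, ∀ Δ ∈ S.homGr (X ⨯ X) b, S.comp Γ Δ = 0

/-- `X` has no phantoms: no idempotent correspondence `e ≠ 0` from `X` to `X` is homologous to zero,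
that is, no direct summand of the Chow motive of `X` except `0` has cohomology zero (for instance if
the motive of `X` is finite-dimensional in the sense of Kimura) -/
def NoPhantom (X : 𝒱) : Prop :=
  ∀ e ∈ S.homGr (X ⨯ X) (S.dim X), S.comp e e = e → e = 0

/-- the power `X^(k+1)` -/
noncomputable def pow (X : 𝒱) : ℕ → 𝒱
  | 0 => X
  | k + 1 => X ⨯ pow X k

/-- the external power `x × ... × x` with `k + 1` factors, a cycle on `X^(k+1)` -/
noncomputable def smash {X : 𝒱} (x : S.A X) : ∀ k : ℕ, S.A (pow X k)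
  | 0 => x
  | k + 1 => S.ex x (smash x k)

/-- Voevodsky's conjecture: cycles homologous to zero are smash-nilpotent -/
def Voevodsky : Prop := ∀ (X : 𝒱) (i : ℕ), ∀ x ∈ S.homGr X i, ∃ k : ℕ, S.smash x k = 0

/-- base change for the push-forward along the projections `X × Y → Y` -/
structure BaseChangePush : Prop where
  base_change : ∀ (X : 𝒱) {Y Y' : 𝒱} (g : Y' ⟶ Y) (b : S.A (X ⨯ Y)),
    S.pull g (S.push (prod.snd : X ⨯ Y ⟶ Y) b) =
      S.push (prod.snd : X ⨯ Y' ⟶ Y') (S.pull (prod.map (𝟙 X) g) b)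

/-- base change for the pull-back along the projections `X × Y → Y` -/
structure BaseChangePull : Prop where
  base_change' : ∀ (X : 𝒱) {Y Y' : 𝒱} (g : Y' ⟶ Y) (b : S.A Y'),
    S.pull (prod.snd : X ⨯ Y ⟶ Y) (S.push g b) =
      S.push (prod.map (𝟙 X) g) (S.pull (prod.snd : X ⨯ Y' ⟶ Y') b)

/-- the composition of correspondences is associative and the diagonals are its units -/
structure CompStandard : Prop where
  comp_assoc : ∀ {X Y Z W : 𝒱} (Γ : S.A (X ⨯ Y)) (Δ : S.A (Y ⨯ Z)) (Ε : S.A (Z ⨯ W)),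
    S.comp (S.comp Γ Δ) Ε = S.comp Γ (S.comp Δ Ε)
  diag_comp : ∀ {X Y : 𝒱} (Γ : S.A (X ⨯ Y)), S.comp (S.mulBy 1) Γ = Γ
  comp_diag : ∀ {X Y : 𝒱} (Γ : S.A (X ⨯ Y)), S.comp Γ (S.mulBy 1) = Γ

/-- properties of dimensions and ample classes -/
structure AmpleStandard : Prop where
  dim_prod : ∀ X Y : 𝒱, S.dim (X ⨯ Y) = S.dim X + S.dim Y
  ample_gr : ∀ {X : 𝒱} {L : S.A X}, S.Ample L → L ∈ S.gr X 1
  ample_pow : ∀ {X : 𝒱} {L : S.A X}, S.Ample L → L ^ S.dim X ≠ 0
  exists_ample : ∀ X : 𝒱, ∃ L : S.A X, S.Ample L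
  ample_prod : ∀ {X Y : 𝒱} (L : S.A X) (M : S.A Y), S.Ample L → S.Ample M →
    S.Ample (S.ex L 1 + S.ex 1 M)

/-- properties of correspondences -/
structure CorrStandard : Prop extends S.BaseChangePush, S.BaseChangePull, S.CompStandard

/-- Standard properties of Chow rings. -/
structure Standard : Prop extends S.Graded, S.Functorial, S.PushStandard, S.CorrStandard,
    S.AmpleStandard

/-- `π j` (`j` an integer; zero unless `0 ≤ j ≤ 2 dim X`), of degree zero, are orthogonal idempotents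
with sum the diagonal, up to the relation `R` -/
structure KunnethDecomposition {X : 𝒱} (R : S.A (X ⨯ X) → S.A (X ⨯ X) → Prop)
    (π : ℤ → S.A (X ⨯ X)) : Prop where
  π_gr : ∀ j, π j ∈ S.gr (X ⨯ X) (S.dim X)
  sum_π : R (∑ j ∈ Finset.Icc (0 : ℤ) (2 * (S.dim X : ℤ)), π j) (S.mulBy 1)
  π_idem : ∀ j, R (S.comp (π j) (π j)) (π j)
  π_orth : ∀ j k, j ≠ k → R (S.comp (π j) (π k)) 0

/-- the `π j` and `Λ`, of degree `-1`, satisfy the relations of the Künneth projectors and of the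
operator `Λ` of Lefschetz theory for `(X, L)`, up to the relation `R` -/
structure LefschetzDecomposition {X : 𝒱} (R : S.A (X ⨯ X) → S.A (X ⨯ X) → Prop) (L : S.A X)
    (π : ℤ → S.A (X ⨯ X)) (Λ : S.A (X ⨯ X)) : Prop extends S.KunnethDecomposition R π where
  Λ_gr : Λ ∈ S.grZ (X ⨯ X) ((S.dim X : ℤ) - 1)
  L_π : ∀ j, R (S.comp (π j) (S.mulBy L)) (S.comp (S.mulBy L) (π (j + 2)))
  Λ_π : ∀ j, R (S.comp (π (j + 2)) Λ) (S.comp Λ (π j))
  comm : R (S.comp Λ (S.mulBy L) - S.comp (S.mulBy L) Λ)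
    (∑ j ∈ Finset.Icc (0 : ℤ) (2 * (S.dim X : ℤ)), ((j - S.dim X : ℤ) : ℚ) • π j)

/-- Grothendieck's standard conjecture `B` for `(X, L)`: the Künneth projectors `π j` and the
operator `Λ` are algebraic, modulo homological equivalence. -/
def StandardB {X : 𝒱} (L : S.A X) (π : ℤ → S.A (X ⨯ X)) (Λ : S.A (X ⨯ X)) : Prop :=
  S.LefschetzDecomposition S.HomEq L π Λ

/-- the standard conjecture `B` for all varieties and ample classes -/
def StandardBAll : Prop :=
  ∀ (X : 𝒱) (L : S.A X), S.Ample L → ∃ (π : ℤ → S.A (X ⨯ X)) (Λ : S.A (X ⨯ X)), S.StandardB L π Λ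

/-- purity of the correspondences from `X` to `X` homologous to zero: `π k ∘ Γ ∘ π j = 0` if `Γ` is
homologous to zero of degree `r` and `k ≠ j + 2 r - 1` -/
def PureFor (X : 𝒱) (π : ℤ → S.A (X ⨯ X)) : Prop :=
  ∀ (a : ℕ), ∀ Γ ∈ S.homGr (X ⨯ X) a, ∀ j k : ℤ, k ≠ j + 2 * (a - S.dim X) - 1 →
    S.comp (S.comp (π j) Γ) (π k) = 0

/-- `π` and `Λ` have lifts `π'` and `Λ'` modulo homological equivalence which satisfy the relations of
Lefschetz theory in `Ch(X × X)`, such that the correspondences homologous to zero are pure -/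
def ExactPure {X : 𝒱} (L : S.A X) (π : ℤ → S.A (X ⨯ X)) (Λ : S.A (X ⨯ X)) : Prop :=
  ∃ (π' : ℤ → S.A (X ⨯ X)) (Λ' : S.A (X ⨯ X)), (∀ j, S.HomEq (π' j) (π j)) ∧ S.HomEq Λ' Λ ∧
    S.LefschetzDecomposition (fun a b => a = b) L π' Λ' ∧ S.PureFor X π'

/-- Q1 for `(X, M)` for all ample `M` for which the standard conjecture `B` holds with the Künneth
projectors `π` -/
def LefschetzAll {X : 𝒱} (π : ℤ → S.A (X ⨯ X)) : Prop :=
  ∀ (M : S.A X) (Λ : S.A (X ⨯ X)), S.Ample M → S.StandardB M π Λ → S.Lefschetz M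

/-- Beilinson's Q1 for all varieties and ample classes -/
def Q1 : Prop := ∀ (X : 𝒱) (L : S.A X), S.Ample L → S.Lefschetz L

/-- Beilinson's Q1 for the squares `(X × X, L × 1 + 1 × L)` -/
def Q1Squares : Prop := ∀ (X : 𝒱) (L : S.A X), S.Ample L → S.Lefschetz (S.box L)

/-- there are no phantoms -/
def NoPhantoms : Prop := ∀ X : 𝒱, S.NoPhantom X

/-- The conjecture of Bloch and Beilinson over number fields for the correspondences from `X` to
`Y`: if `Γ` acts as zero on the cohomology of `X` in degree `2 i - 1` (that is, `Γ ∘ π_(2 i - 1)` is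
homologous to zero), then `Γ` acts as zero on `Ch^i(X)^0`. -/
def BlochBeilinsonFor (X Y : 𝒱) (π : ℤ → S.A (X ⨯ X)) : Prop :=
  ∀ (i a : ℕ) (Γ : S.A (X ⨯ Y)), Γ ∈ S.gr (X ⨯ Y) a →
    S.comp (π (2 * (i : ℤ) - 1)) Γ ∈ S.hom (X ⨯ Y) → ∀ x ∈ S.homGr X i, S.act Γ x = 0

/-- The conjecture of Bloch and Beilinson for all correspondences. -/
def BlochBeilinson : Prop :=
  ∀ (X Y : 𝒱) (L : S.A X) (π : ℤ → S.A (X ⨯ X)) (Λ : S.A (X ⨯ X)), S.Ample L →
    S.StandardB L π Λ → S.BlochBeilinsonFor X Y π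

end ChowTheory

end Pool.Agent.Helper17.NN
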