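import Pool.Agent.Helper17.NN.Conv
import Pool.Agent.Helper83.NN.Smash

/-!
# Q1 and the conjecture of Bloch and Beilinson, for all varieties
-/

set_option autoImplicit false

open CategoryTheory CategoryTheory.Limits

namespace Pool.Agent.Helper17.NN

universe u v w

namespace ChowTheory

variable {𝒱 : Type u} [Category.{v} 𝒱] {S : ChowTheory.{u, v, w} 𝒱} [HasBinaryProducts 𝒱]

/-- if products vanish on `X × Y`, the correspondences homologous to zero act as zero -/
theorem act_eq_zero_of_products (hS : S.Standard) {X Y : 𝒱} (hP : S.ProductsVanish (X ⨯ Y)) :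
    ∀ a : ℕ, ∀ Γ ∈ S.homGr (X ⨯ Y) a, ∀ i : ℕ, ∀ x ∈ S.homGr X i, S.act Γ x = 0 := by
  intro a Γ hΓ i x hx
  rw [act, hP a i Γ hΓ _ ⟨hS.pull_gr _ _ _ hx.1, hS.pull_hom _ _ hx.2⟩, map_zero]

/-- if products vanish on `X × (X × X)`, then there are no phantoms -/
theorem noPhantom_of_products (hS : S.Standard) {X : 𝒱} (hP : S.ProductsVanish (X ⨯ (X ⨯ X))) :
    S.NoPhantom X := by
  intro e he hee
  rw [← hee, comp, hP _ _ _ ⟨hS.pull_gr _ _ _ he.1, hS.pull_hom _ _ he.2⟩ _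
    ⟨hS.pull_gr _ _ _ he.1, hS.pull_hom _ _ he.2⟩, map_zero]

/-- if products vanish on `X × X`, then `x × x = 0` -/
theorem smash_of_products (hS : S.Standard) {X : 𝒱} (hP : S.ProductsVanish (X ⨯ X)) {i : ℕ}
    {x : S.A X} (hx : x ∈ S.homGr X i) : S.smash x 1 = 0 := by
  have h1 : S.smash x 1 = S.pull (prod.fst : X ⨯ X ⟶ X) x * S.pull (prod.snd : X ⨯ X ⟶ X) x := rfl
  rw [h1]
  exact hP _ _ _ ⟨hS.pull_gr _ _ _ hx.1, hS.pull_hom _ _ hx.2⟩ _
    ⟨hS.pull_gr _ _ _ hx.1, hS.pull_hom _ _ hx.2⟩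

variable (hS : S.Standard) (hB : S.StandardBAll)

include hS hB

/-- Q1 for the squares `X × X`, without phantoms, gives the conjecture of Bloch and Beilinson -/
theorem blochBeilinson_of (hN : S.NoPhantoms) (hQ : S.Q1Squares) : S.BlochBeilinson := by
  have hP : ∀ X : 𝒱, S.ProductsVanish X := by
    intro X
    obtain ⟨L, hL⟩ := hS.exists_ample X
    obtain ⟨π, Λ, hK⟩ := hB X L hL
    exact productsVanish hS hL hK (hN X) (hQ X L hL)
  intro X Y L π Λ hL hK
  exact Pool.Agent.Helper21.NN.blochBeilinsonFor_of hS hK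
    (act_eq_zero_of_products hS (hP (X ⨯ Y)))
    (fun _ _ hx => pure hS hL hK (hN X) (hQ X L hL) hx)

/-- the conjecture of Bloch and Beilinson implies that products vanish -/
theorem products_of_blochBeilinson (hBB : S.BlochBeilinson) (X : 𝒱) : S.ProductsVanish X := by
  intro i j x hx y hy
  obtain ⟨L, hL⟩ := hS.exists_ample X
  obtain ⟨π, Λ, hK⟩ := hB X L hL
  have h1 : S.mulBy x ∈ S.homGr (X ⨯ X) (i + S.dim X) := by
    have h2 : S.mulBy x ∈ S.hgr (X ⨯ X) ((i + S.dim X : ℕ) : ℤ) :=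
      ⟨by push_cast; exact mulBy_mem_grZ hS (mem_grZ_iff.2 hx.1), hS.push_hom _ _ hx.2⟩
    exact mem_hgr_iff.1 h2
  have h3 := Pool.Agent.Helper21.NN.act_eq_zero_of_blochBeilinsonFor hS (hBB X X L π Λ hL hK) _ _
    h1 j y hy
  rwa [act_mulBy hS] at h3

/-- the conjecture of Bloch and Beilinson implies Q1, without phantoms -/
theorem of_blochBeilinson (hBB : S.BlochBeilinson) : S.NoPhantoms ∧ S.Q1 := by
  have hP := products_of_blochBeilinson hS hB hBB
  refine ⟨fun X => noPhantom_of_products hS (hP _), fun X L hL => ?_⟩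
  obtain ⟨π, Λ, hK⟩ := hB X L hL
  exact Pool.Agent.Helper21.NN.lefschetz_of_blochBeilinsonFor hS hK (hS.ample_gr hL)
    (hBB X X L π Λ hL hK)

/-- **Theorem**, all varieties. -/
theorem all_varieties :
    (S.BlochBeilinson ↔ S.NoPhantoms ∧ S.Q1) ∧ (S.BlochBeilinson ↔ S.NoPhantoms ∧ S.Q1Squares) ∧
      (S.BlochBeilinson ↔ S.Voevodsky ∧ S.Q1) := by
  have hsq : S.Q1 → S.Q1Squares := fun h X L hL => h _ _ (hS.ample_prod L L hL hL)
  refine ⟨⟨fun h => of_blochBeilinson hS hB h,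
      fun h => blochBeilinson_of hS hB h.1 (hsq h.2)⟩,
    ⟨fun h => ⟨(of_blochBeilinson hS hB h).1, hsq (of_blochBeilinson hS hB h).2⟩,
      fun h => blochBeilinson_of hS hB h.1 h.2⟩,
    ⟨fun h => ⟨?_, (of_blochBeilinson hS hB h).2⟩,
      fun h => blochBeilinson_of hS hB
        (fun X => Pool.Agent.Helper83.NN.noPhantom_of_voevodsky hS h.1 X) (hsq h.2)⟩⟩
  intro X i x hx
  exact ⟨1, smash_of_products hS (products_of_blochBeilinson hS hB h (X ⨯ X)) hx⟩

end ChowTheory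

end Pool.Agent.Helper17.NN
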