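import Mathlib

/-!
# Decompositions of the unit into projectors, and relations modulo an ideal
-/

set_option autoImplicit false

namespace Pool.Agent.Helper17.NN

universe u

section exact

variable {R : Type u} [Ring R] [Algebra ℚ R]

/-- `P j`, `0 ≤ j ≤ 2 n`, are orthogonal idempotents with sum one -/
structure Proj (n : ℕ) (P : ℤ → R) : Prop where
  sum : ∑ j ∈ Finset.Icc (0 : ℤ) (2 * n), P j = 1
  idem : ∀ j, P j * P j = P j
  orth : ∀ j k, j ≠ k → P k * P j = 0

/-- the element which acts as `c j` on the part `j` -/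
noncomputable def diag (n : ℕ) (P : ℤ → R) (c : ℤ → ℚ) : R := ∑ j ∈ Finset.Icc (0 : ℤ) (2 * n), c j • P j

namespace Proj

variable {n : ℕ} {P : ℤ → R} (h : Proj n P)

include h

omit [Algebra ℚ R] in
theorem range {j : ℤ} (hj : j ∉ Finset.Icc (0 : ℤ) (2 * n)) : P j = 0 := by
  rw [← one_mul (P j), ← h.sum, Finset.sum_mul]
  refine Finset.sum_eq_zero fun k hk => h.orth j k ?_
  rintro rfl
  exact hj hk

omit [Algebra ℚ R] in
theorem ext {x y : R} (hxy : ∀ j, x * P j = y * P j) : x = y := by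
  rw [← mul_one x, ← mul_one y, ← h.sum, Finset.mul_sum, Finset.mul_sum]
  exact Finset.sum_congr rfl fun j _ => hxy j

theorem diag_mul (c : ℤ → ℚ) (j : ℤ) : diag n P c * P j = c j • P j := by
  by_cases hj : j ∈ Finset.Icc (0 : ℤ) (2 * n)
  · rw [diag, Finset.sum_mul, Finset.sum_eq_single_of_mem j hj, smul_mul_assoc, h.idem]
    intro k _ hk
    rw [smul_mul_assoc, h.orth j k hk.symm, smul_zero]
  · rw [h.range hj, mul_zero, smul_zero]

theorem mul_diag (c : ℤ → ℚ) (j : ℤ) : P j * diag n P c = c j • P j := by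
  by_cases hj : j ∈ Finset.Icc (0 : ℤ) (2 * n)
  · rw [diag, Finset.mul_sum, Finset.sum_eq_single_of_mem j hj, mul_smul_comm, h.idem]
    intro k _ hk
    rw [mul_smul_comm, h.orth k j hk, smul_zero]
  · rw [h.range hj, zero_mul, smul_zero]

theorem aeval_diag (c : ℤ → ℚ) (f : Polynomial ℚ) (j : ℤ) :
    Polynomial.aeval (diag n P c) f * P j = f.eval (c j) • P j := by
  induction f using Polynomial.induction_on with
  | C a => rw [Polynomial.aeval_C, Polynomial.eval_C, Algebra.smul_def]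
  | add p q hp hq => rw [map_add, add_mul, hp, hq, Polynomial.eval_add, add_smul]
  | monomial k a ih =>
    rw [pow_succ, ← mul_assoc, map_mul, Polynomial.aeval_X, mul_assoc, h.diag_mul, mul_smul_comm,
      ih, smul_smul, Polynomial.eval_mul (p := Polynomial.C a * Polynomial.X ^ k),
      Polynomial.eval_X, mul_comm (c j)]

theorem aeval_diag' (c : ℤ → ℚ) (f : Polynomial ℚ) :
    Polynomial.aeval (diag n P c) f = diag n P fun j => f.eval (c j) := by
  refine h.ext fun j => ?_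
  rw [h.aeval_diag, h.diag_mul]

/-- an element which moves the parts by `d` -/
theorem shift {L : R} {d : ℤ} (hL : ∀ j, L * P j = P (j + d) * L) (c : ℤ → ℚ) (j : ℤ) :
    diag n P c * L * P j = c (j + d) • (L * P j) := by
  rw [mul_assoc, hL, ← mul_assoc, h.diag_mul, smul_mul_assoc]

end Proj

/-- the parity -/
def sgn (j : ℤ) : ℚ := if j % 4 < 2 then 1 else -1

theorem sgn_add_two (j : ℤ) : sgn (j + 2) = -sgn j := by
  have h1 : j % 4 < 2 ↔ ¬ (j + 2) % 4 < 2 := by omega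
  rw [sgn, sgn]
  by_cases h2 : j % 4 < 2
  · rw [if_pos h2, if_neg (h1.1 h2)]
  · rw [if_neg h2, if_pos, neg_neg]
    by_contra h3
    exact h2 (h1.2 h3)

theorem sgn_mul_self (j : ℤ) : sgn j * sgn j = 1 := by
  rw [sgn]
  split_ifs <;> norm_num

theorem sgn_sub_two (j : ℤ) : sgn (j + -2) = -sgn j := by
  have h := sgn_add_two (j + -2)
  rw [show j + -2 + 2 = j by ring] at h
  rw [h, neg_neg]

/-- the eigenvalue of `H` on the part `j` -/
def wt (n : ℕ) (j : ℤ) : ℚ := ((j - n : ℤ) : ℚ)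

theorem wt_inj (n : ℕ) (s : Set ℤ) : Set.InjOn (wt n) s := by
  intro a _ b _ h
  have h0 : ((a - n : ℤ) : ℚ) = ((b - n : ℤ) : ℚ) := h
  have h1 : (a - n : ℤ) = (b - n : ℤ) := by exact_mod_cast h0
  omega

/-- the polynomial which gives the parity in terms of `H` -/
noncomputable def parityPoly (n : ℕ) : Polynomial ℚ :=
  Lagrange.interpolate (Finset.Icc (0 : ℤ) (2 * n)) (wt n) sgn

theorem eval_parityPoly (n : ℕ) (j : ℤ) (hj : j ∈ Finset.Icc (0 : ℤ) (2 * n)) :
    (parityPoly n).eval (wt n j) = sgn j :=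
  Lagrange.eval_interpolate_at_node sgn (wt_inj n _) hj

/-- the relations for `κ` and `H` -/
theorem exact_relations {n : ℕ} {P : ℤ → R} (h : Proj n P) {L Λ : R}
    (hL : ∀ j, L * P j = P (j + 2) * L) (hΛ : ∀ j, Λ * P (j + 2) = P j * Λ) :
    L * diag n P sgn + diag n P sgn * L = 0 ∧ diag n P sgn * diag n P sgn = 1 ∧
    diag n P (fun j => ((j - n : ℤ) : ℚ)) * L - L * diag n P (fun j => ((j - n : ℤ) : ℚ)) =
      (2 : ℚ) • L ∧
    diag n P (fun j => ((j - n : ℤ) : ℚ)) * Λ - Λ * diag n P (fun j => ((j - n : ℤ) : ℚ)) =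
      -((2 : ℚ) • Λ) ∧
    diag n P sgn * diag n P (fun j => ((j - n : ℤ) : ℚ)) =
      diag n P (fun j => ((j - n : ℤ) : ℚ)) * diag n P sgn ∧
    diag n P sgn * Λ + Λ * diag n P sgn = 0 ∧
    Polynomial.aeval (diag n P (fun j => ((j - n : ℤ) : ℚ))) (parityPoly n) = diag n P sgn := by
  have hΛ' : ∀ j, Λ * P j = P (j + -2) * Λ := by
    intro j
    have := hΛ (j + -2)
    rwa [show j + -2 + 2 = j by ring] at this
  refine ⟨h.ext fun j => ?_, h.ext fun j => ?_, h.ext fun j => ?_, h.ext fun j => ?_,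
    h.ext fun j => ?_, h.ext fun j => ?_, ?_⟩
  · rw [zero_mul, add_mul, mul_assoc, h.diag_mul, h.shift hL, sgn_add_two, mul_smul_comm,
      neg_smul, add_neg_cancel]
  · rw [mul_assoc, h.diag_mul, mul_smul_comm, h.diag_mul, smul_smul, sgn_mul_self, one_smul,
      one_mul]
  · rw [sub_mul, mul_assoc L, h.diag_mul, h.shift hL, mul_smul_comm, smul_mul_assoc, ← sub_smul]
    congr 1
    push_cast
    ring
  · rw [sub_mul, mul_assoc Λ, h.diag_mul, h.shift hΛ', mul_smul_comm, neg_mul, smul_mul_assoc,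
      ← sub_smul, ← neg_smul]
    congr 1
    push_cast
    ring
  · rw [mul_assoc, mul_assoc, h.diag_mul, h.diag_mul, mul_smul_comm, mul_smul_comm, h.diag_mul,
      h.diag_mul, smul_comm]
  · rw [zero_mul, add_mul, mul_assoc Λ, h.diag_mul, h.shift hΛ', sgn_sub_two, mul_smul_comm,
      neg_smul, neg_add_cancel]
  · rw [h.aeval_diag']
    refine Finset.sum_congr rfl fun j hj => ?_
    exact congrArg (· • P j) (eval_parityPoly n j hj)

end exact

section mod

variable {E : Type u} [Ring E] [Algebra ℚ E]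

/-- the relations of a Künneth decomposition with the operators `L` and `Λ`, modulo `J` -/
structure Rel (J : Submodule ℚ E) (n : ℕ) (P : ℤ → E) (L Λ : E) : Prop where
  sum : ∑ j ∈ Finset.Icc (0 : ℤ) (2 * n), P j - 1 ∈ J
  idem : ∀ j, P j * P j - P j ∈ J
  orth : ∀ j k, j ≠ k → P k * P j ∈ J
  L_P : ∀ j, L * P j - P (j + 2) * L ∈ J
  Λ_P : ∀ j, Λ * P (j + 2) - P j * Λ ∈ J
  comm : L * Λ - Λ * L - diag n P (fun j => ((j - n : ℤ) : ℚ)) ∈ J

/-- the two-sided ideal `J` -/
def toIdeal (J : Submodule ℚ E) (Jl : ∀ (a : E) {b : E}, b ∈ J → a * b ∈ J)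
    (Jr : ∀ {a : E} (b : E), a ∈ J → a * b ∈ J) : TwoSidedIdeal E :=
  TwoSidedIdeal.mk' J J.zero_mem J.add_mem J.neg_mem (fun {x _} hy => Jl x hy)
    (fun {_ _} hx => Jr _ hx)

theorem mk_eq {J : Submodule ℚ E} {Jl : ∀ (a : E) {b : E}, b ∈ J → a * b ∈ J}
    {Jr : ∀ {a : E} (b : E), a ∈ J → a * b ∈ J} {a b : E} :
    (toIdeal J Jl Jr).ringCon.mk' a = (toIdeal J Jl Jr).ringCon.mk' b ↔ a - b ∈ J := by
  have h1 : (toIdeal J Jl Jr).ringCon.mk' a = (toIdeal J Jl Jr).ringCon.mk' b ↔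
      (toIdeal J Jl Jr).ringCon a b := RingCon.eq _
  rw [h1, TwoSidedIdeal.rel_iff]
  exact TwoSidedIdeal.mem_mk' _ _ _ _ _ _ _

/-- the hypotheses of the theorem of `Ring.lean` -/
theorem mod_relations {J : Submodule ℚ E} (Jl : ∀ (a : E) {b : E}, b ∈ J → a * b ∈ J)
    (Jr : ∀ {a : E} (b : E), a ∈ J → a * b ∈ J) {n : ℕ} {P : ℤ → E} {L Λ : E}
    (h : Rel J n P L Λ) :
    L * diag n P sgn + diag n P sgn * L ∈ J ∧ diag n P sgn * diag n P sgn - 1 ∈ J ∧
    diag n P (fun j => ((j - n : ℤ) : ℚ)) * L - L * diag n P (fun j => ((j - n : ℤ) : ℚ)) -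
      (2 : ℚ) • L ∈ J ∧
    diag n P (fun j => ((j - n : ℤ) : ℚ)) * Λ - Λ * diag n P (fun j => ((j - n : ℤ) : ℚ)) +
      (2 : ℚ) • Λ ∈ J ∧
    diag n P sgn * diag n P (fun j => ((j - n : ℤ) : ℚ)) -
      diag n P (fun j => ((j - n : ℤ) : ℚ)) * diag n P sgn ∈ J ∧
    diag n P sgn * Λ + Λ * diag n P sgn ∈ J ∧
    Polynomial.aeval (diag n P (fun j => ((j - n : ℤ) : ℚ))) (parityPoly n) -
      diag n P sgn ∈ J := by
  set q := (toIdeal J Jl Jr).ringCon.mk' with hq
  have hmk : ∀ {a b : E}, q a = q b ↔ a - b ∈ J := mk_eq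
  have hmk0 : ∀ {a : E}, q a = 0 ↔ a ∈ J := by
    intro a
    rw [← map_zero q, hmk, sub_zero]
  have hsm : ∀ (c : ℚ) (a : E), q (c • a) = c • q a := fun c a => map_rat_smul q c a
  have hd : ∀ c : ℤ → ℚ, q (diag n P c) = diag n (fun j => q (P j)) c := by
    intro c
    rw [diag, diag, map_sum]
    exact Finset.sum_congr rfl fun j _ => hsm _ _
  have hP : Proj n (fun j => q (P j)) :=
    { sum := by
        rw [← map_sum, ← map_one q, hmk]
        exact h.sum
      idem := fun j => by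
        rw [← map_mul, hmk]
        exact h.idem j
      orth := fun j k hjk => by
        rw [← map_mul, hmk0]
        exact h.orth j k hjk }
  obtain ⟨h1, h2, h3, h4, h5, h6, h7⟩ := exact_relations hP (L := q L) (Λ := q Λ)
    (fun j => by rw [← map_mul, ← map_mul, hmk]; exact h.L_P j)
    (fun j => by rw [← map_mul, ← map_mul, hmk]; exact h.Λ_P j)
  refine ⟨?_, ?_, ?_, ?_, ?_, ?_, ?_⟩
  · rw [← hmk0, map_add, map_mul, map_mul, hd]
    exact h1
  · rw [← hmk, map_mul, hd, map_one]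
    exact h2
  · rw [← hmk, map_sub, map_mul, map_mul, hd, hsm]
    exact h3
  · rw [← hmk0, map_add, map_sub, map_mul, map_mul, hd, hsm, h4, neg_add_cancel]
  · rw [← hmk, map_mul, map_mul, hd, hd]
    exact h5
  · rw [← hmk0, map_add, map_mul, map_mul, hd]
    exact h6
  · rw [← hmk]
    have h8 : q.toRatAlgHom (Polynomial.aeval (diag n P (fun j => ((j - n : ℤ) : ℚ)))
        (parityPoly n)) = Polynomial.aeval (q.toRatAlgHom (diag n P
          (fun j => ((j - n : ℤ) : ℚ)))) (parityPoly n) := (Polynomial.aeval_algHom_apply _ _ _).symm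
    have h9 : q (Polynomial.aeval (diag n P (fun j => ((j - n : ℤ) : ℚ))) (parityPoly n)) =
        Polynomial.aeval (q (diag n P (fun j => ((j - n : ℤ) : ℚ)))) (parityPoly n) := h8
    rw [h9, hd, hd]
    exact h7

end mod

end Pool.Agent.Helper17.NN
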