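import Pool.Agent.Helper17.NN.Ring
import Pool.Agent.Helper17.NN.Proj

/-!
# Exact projectors
-/

set_option autoImplicit false

open Polynomial

namespace Pool.Agent.Helper17.NN

universe u

variable {E : Type u} [Ring E] [Algebra ℚ E]

section spectral

variable {n : ℕ} {H : E}
  (hz : aeval H (∏ j ∈ Finset.Icc (0 : ℤ) (2 * n), (X - C (wt n j))) = 0)

include hz

/-- a polynomial which vanishes at the eigenvalues -/
theorem aeval_eq_zero {f : ℚ[X]} (hf : ∀ j ∈ Finset.Icc (0 : ℤ) (2 * n), f.eval (wt n j) = 0) :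
    aeval H f = 0 := by
  have h1 : (∏ j ∈ Finset.Icc (0 : ℤ) (2 * n), (X - C (wt n j))) ∣ f := by
    refine Finset.prod_dvd_of_coprime ?_ fun j hj => dvd_iff_isRoot.2 (hf j hj)
    intro i hi j hj hij
    refine isCoprime_X_sub_C_of_isUnit_sub ?_
    rw [isUnit_iff_ne_zero, sub_ne_zero]
    exact fun h => hij (wt_inj n Set.univ trivial trivial h)
  obtain ⟨g, rfl⟩ := h1
  rw [map_mul, hz, zero_mul]

theorem aeval_congr {f g : ℚ[X]}
    (hf : ∀ j ∈ Finset.Icc (0 : ℤ) (2 * n), f.eval (wt n j) = g.eval (wt n j)) :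
    aeval H f = aeval H g := by
  rw [← sub_eq_zero, ← map_sub]
  refine aeval_eq_zero hz fun j hj => ?_
  rw [eval_sub, hf j hj, sub_self]

end spectral

/-- the Lagrange polynomials -/
noncomputable def lag (n : ℕ) (j : ℤ) : ℚ[X] :=
  if j ∈ Finset.Icc (0 : ℤ) (2 * n) then
    Lagrange.basis (Finset.Icc (0 : ℤ) (2 * n)) (wt n) j else 0

theorem eval_lag (n : ℕ) (j k : ℤ) (hk : k ∈ Finset.Icc (0 : ℤ) (2 * n)) :
    (lag n j).eval (wt n k) = if j = k then 1 else 0 := by
  rw [lag]
  by_cases hj : j ∈ Finset.Icc (0 : ℤ) (2 * n)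
  · rw [if_pos hj]
    by_cases hjk : j = k
    · subst hjk
      rw [if_pos rfl, Lagrange.eval_basis_self (wt_inj n _) hj]
    · rw [if_neg hjk, Lagrange.eval_basis_of_ne hjk hk]
  · rw [if_neg hj, eval_zero, if_neg]
    rintro rfl
    exact hj hk

/-- the spectral projectors of `H` -/
noncomputable def spec (n : ℕ) (H : E) (j : ℤ) : E := aeval H (lag n j)

section spectral2

variable {n : ℕ} {H : E}
  (hz : aeval H (∏ j ∈ Finset.Icc (0 : ℤ) (2 * n), (X - C (wt n j))) = 0)

include hz

theorem spec_proj : Proj n (spec n H) where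
  sum := by
    simp only [spec]
    rw [← map_sum, ← map_one (aeval (R := ℚ) H)]
    refine aeval_congr hz fun k hk => ?_
    rw [eval_finsetSum, Finset.sum_eq_single_of_mem k hk]
    · rw [eval_lag n k k hk, if_pos rfl, eval_one]
    · intro j _ hj
      rw [eval_lag n j k hk, if_neg hj]
  idem j := by
    simp only [spec]
    rw [← map_mul]
    refine aeval_congr hz fun k hk => ?_
    rw [eval_mul, eval_lag n j k hk]
    split_ifs <;> norm_num
  orth j k hjk := by
    simp only [spec]
    rw [← map_mul]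
    refine aeval_eq_zero hz fun l hl => ?_
    rw [eval_mul, eval_lag n j l hl, eval_lag n k l hl]
    by_cases h : j = l
    · subst h
      rw [if_neg (Ne.symm hjk), zero_mul]
    · rw [if_neg h, mul_zero]

theorem mul_spec (j : ℤ) : H * spec n H j = wt n j • spec n H j := by
  simp only [spec]
  conv_lhs => rw [← aeval_X (R := ℚ) H]
  rw [← map_smul]
  have h1 : (aeval ((aeval H) (X : ℚ[X]))) (lag n j) = aeval H (lag n j) := by rw [aeval_X]
  rw [h1, ← map_mul]
  refine aeval_congr hz fun k hk => ?_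
  rw [eval_mul, eval_X, eval_smul, eval_lag n j k hk, smul_eq_mul]
  split_ifs with h
  · rw [h]
  · rw [mul_zero, mul_zero]

theorem spec_mul (j : ℤ) : spec n H j * H = wt n j • spec n H j := by
  rw [← mul_spec hz j]
  have h1 : Commute (aeval H (lag n j)) (aeval H (X : ℚ[X])) := by
    rw [commute_iff_eq, ← map_mul, ← map_mul, mul_comm]
  rw [aeval_X] at h1
  exact h1

theorem diag_spec : diag n (spec n H) (wt n) = H := by
  refine (spec_proj hz).ext fun j => ?_
  rw [(spec_proj hz).diag_mul, mul_spec hz]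

/-- an element of weight `d` for `H` moves the parts by `d` -/
theorem shift_spec {L : E} {d : ℤ} (hL : H * L - L * H = (d : ℚ) • L) (j : ℤ) :
    L * spec n H j = spec n H (j + d) * L := by
  have hP := spec_proj hz
  have key : ∀ j k : ℤ, k ≠ j + d → spec n H k * L * spec n H j = 0 := by
    intro j k hk
    have h1 : H * L = L * H + (d : ℚ) • L := by rw [← hL]; abel
    have h2 : spec n H k * H * L * spec n H j = spec n H k * (L * (H * spec n H j)) +
        (d : ℚ) • (spec n H k * L * spec n H j) := by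
      rw [mul_assoc (spec n H k) H L, h1, mul_add, add_mul, mul_smul_comm, smul_mul_assoc]
      simp only [mul_assoc]
    rw [spec_mul hz, mul_spec hz, mul_smul_comm, mul_smul_comm, smul_mul_assoc, smul_mul_assoc,
      ← mul_assoc, ← add_smul, ← sub_eq_zero, ← sub_smul] at h2
    rcases smul_eq_zero.1 h2 with h3 | h3
    · exfalso
      apply hk
      have h4 : ((k - n : ℤ) : ℚ) - (((j - n : ℤ) : ℚ) + d) = 0 := h3
      have h5 : (k - n : ℤ) - ((j - n : ℤ) + d) = 0 := by exact_mod_cast h4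
      omega
    · exact h3
  have hl : ∀ {x y : E}, (∀ j, spec n H j * x = spec n H j * y) → x = y := by
    intro x y hxy
    rw [← one_mul x, ← one_mul y, ← hP.sum, Finset.sum_mul, Finset.sum_mul]
    exact Finset.sum_congr rfl fun j _ => hxy j
  refine hP.ext fun b => hl fun a => ?_
  by_cases hb : j = b
  · subst hb
    rw [mul_assoc L, hP.idem]
    by_cases ha : a = j + d
    · subst ha
      rw [← mul_assoc (spec n H (j + d)) (spec n H (j + d) * L), ← mul_assoc (spec n H (j + d))
        (spec n H (j + d)) L, hP.idem, mul_assoc]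
    · rw [← mul_assoc, key j a ha, mul_assoc (spec n H (j + d)) L, ← mul_assoc (spec n H a),
        hP.orth _ _ (Ne.symm ha), zero_mul]
  · rw [mul_assoc L, hP.orth b j (Ne.symm hb), mul_zero, mul_zero,
      mul_assoc (spec n H (j + d)) L, ← mul_assoc (spec n H a)]
    by_cases ha : a = j + d
    · subst ha
      rw [hP.idem, ← mul_assoc, key b (j + d) (by omega)]
    · rw [hP.orth _ _ (Ne.symm ha), zero_mul]

end spectral2

/-- the eigenvalues of `H` -/
theorem exists_eigenvalue {n : ℕ} {P : ℤ → E} (hP : Proj n P) {v : E} {μ : ℚ} (hv : v ≠ 0)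
    (h : v * diag n P (wt n) = μ • v) : ∃ j ∈ Finset.Icc (0 : ℤ) (2 * n), μ = wt n j := by
  by_contra hc
  apply hv
  have h1 : ∀ j ∈ Finset.Icc (0 : ℤ) (2 * n), v * P j = 0 := by
    intro j hj
    have h2 : (wt n j - μ) • (v * P j) = 0 := by
      rw [sub_smul, ← mul_smul_comm, ← hP.diag_mul (wt n) j, ← mul_assoc, h, smul_mul_assoc,
        sub_self]
    rcases smul_eq_zero.1 h2 with h3 | h3
    · exact absurd ⟨j, hj, (sub_eq_zero.1 h3).symm⟩ hc
    · exact h3
  rw [← mul_one v, ← hP.sum, Finset.mul_sum, Finset.sum_eq_zero h1]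

/-- **Theorem.** The relations modulo `J` lift to exact relations. -/
theorem exact_lift {G : ℤ → Submodule ℚ E} {J : Submodule ℚ E} {L : E} (D : LefschetzRing G J L)
    {n : ℕ} {P : ℤ → E} {Λ₀ : E} (hP : ∀ j, P j ∈ G 0) (hΛ : Λ₀ ∈ G (-1)) (h : Rel J n P L Λ₀) :
    ∃ (P' : ℤ → E) (Λ : E), (∀ j, P' j ∈ G 0) ∧ (∀ j, P' j - P j ∈ J) ∧ Λ ∈ G (-1) ∧ Λ - Λ₀ ∈ J ∧
      Rel ⊥ n P' L Λ ∧
      (∀ (r : ℤ) (a : E), a ∈ G r → a ∈ J →
        diag n P' (wt n) * a - a * diag n P' (wt n) = (2 * r - 1 : ℚ) • a) ∧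
      ∀ (r s : ℤ) (a b : E), a ∈ G r → a ∈ J → b ∈ G s → b ∈ J → a * b = 0 := by
  obtain ⟨m1, m2, m3, m4, m5, m6, m7⟩ := mod_relations (fun a b hb => D.J_left a hb)
    (fun b ha => D.J_right b ha) h
  have hdiag : ∀ c : ℤ → ℚ, diag n P c ∈ G 0 := fun c =>
    Submodule.sum_mem _ fun j _ => Submodule.smul_mem _ _ (hP j)
  obtain ⟨H, hH, Λ, hΛ1, hHJ, hΛJ, hHL, hLΛ, hHΛ, hpure, hJJ⟩ :=
    D.main (hdiag sgn) m1 m2 (hdiag _) m3 hΛ h.comm m4 m5 m6 m7
  -- polynomials in `H`
  have hpoly : ∀ f : ℚ[X], aeval H f ∈ G 0 := fun f => D.aeval_mem hH f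
  have hcomm : ∀ f : ℚ[X], H * aeval H f = aeval H f * H := by
    intro f
    have h1 : Commute (aeval H (X : ℚ[X])) (aeval H f) := by
      rw [commute_iff_eq, ← map_mul, ← map_mul, mul_comm]
    rw [aeval_X] at h1
    exact h1
  -- modulo `J`
  set q := (toIdeal J (fun a b hb => D.J_left a hb) (fun b ha => D.J_right b ha)).ringCon.mk'
    with hq
  have hmk : ∀ {a b : E}, q a = q b ↔ a - b ∈ J := mk_eq
  have hmk0 : ∀ {a : E}, q a = 0 ↔ a ∈ J := by
    intro a
    rw [← map_zero q, hmk, sub_zero]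
  have hQP : Proj n (fun j => q (P j)) :=
    { sum := by
        rw [← map_sum, ← map_one q, hmk]
        exact h.sum
      idem := fun j => by
        rw [← map_mul, hmk]
        exact h.idem j
      orth := fun j k hjk => by
        rw [← map_mul, hmk0]
        exact h.orth j k hjk }
  have hqH : q H = diag n (fun j => q (P j)) (wt n) := by
    have h1 : q H = q (diag n P (wt n)) := hmk.2 hHJ
    rw [h1, diag, diag, map_sum]
    exact Finset.sum_congr rfl fun j _ => map_rat_smul q _ _
  have hqf : ∀ f : ℚ[X], q (aeval H f) = diag n (fun j => q (P j)) fun j => f.eval (wt n j) := by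
    intro f
    have h1 : q.toRatAlgHom (aeval H f) = aeval (q.toRatAlgHom H) f :=
      (aeval_algHom_apply _ _ _).symm
    have h2 : aeval (q.toRatAlgHom H) f = aeval (q H) f := rfl
    have h3 : q.toRatAlgHom (aeval H f) = q (aeval H f) := rfl
    rw [← h3, h1, h2, hqH, hQP.aeval_diag']
  -- `H` is semisimple
  have hz : aeval H (∏ j ∈ Finset.Icc (0 : ℤ) (2 * n), (X - C (wt n j))) = 0 := by
    set z := aeval H (∏ j ∈ Finset.Icc (0 : ℤ) (2 * n), (X - C (wt n j))) with hzd
    have hzJ : z ∈ J := by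
      rw [← hmk0, hzd, hqf]
      rw [diag]
      refine Finset.sum_eq_zero fun j hj => ?_
      have h1 : (∏ j ∈ Finset.Icc (0 : ℤ) (2 * n), (X - C (wt n j))).eval (wt n j) = 0 := by
        rw [eval_prod]
        refine Finset.prod_eq_zero hj ?_
        rw [eval_sub, eval_X, eval_C, sub_self]
      rw [h1, zero_smul]
    have h1 := hpure 0 z (hpoly _) hzJ
    rw [hzd, hcomm, sub_self] at h1
    have h2 : ((2 * ((0 : ℤ) : ℚ) - 1 : ℚ)) = -1 := by norm_num
    rw [h2, neg_smul, one_smul] at h1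
    exact neg_eq_zero.1 h1.symm
  have hS := spec_proj hz
  have hHd : diag n (spec n H) (wt n) = H := diag_spec hz
  refine ⟨spec n H, Λ, fun j => hpoly _, ?_, hΛ1, hΛJ, ?_, ?_, hJJ⟩
  · intro j
    rw [← hmk, spec, hqf]
    refine hQP.ext fun k => ?_
    rw [hQP.diag_mul]
    by_cases hk : k ∈ Finset.Icc (0 : ℤ) (2 * n)
    · rw [eval_lag n j k hk]
      by_cases hjk : j = k
      · subst hjk
        rw [if_pos rfl, one_smul]
        exact (hQP.idem j).symm
      · rw [if_neg hjk, zero_smul]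
        exact (hQP.orth k j (Ne.symm hjk)).symm
    · rw [hQP.range hk, smul_zero, mul_zero]
  · refine ⟨?_, ?_, ?_, ?_, ?_, ?_⟩
    · rw [hS.sum, sub_self]
      exact Submodule.zero_mem _
    · intro j
      rw [hS.idem, sub_self]
      exact Submodule.zero_mem _
    · intro j k hjk
      rw [hS.orth j k hjk]
      exact Submodule.zero_mem _
    · intro j
      rw [shift_spec hz (d := 2) (by exact_mod_cast hHL), sub_self]
      exact Submodule.zero_mem _
    · intro j
      have h1 := shift_spec hz (L := Λ) (d := -2)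
        (by
          have h2 := eq_neg_of_add_eq_zero_left hHΛ
          rw [h2]
          push_cast
          rw [neg_smul]) (j + 2)
      rw [h1, show j + 2 + -2 = j by ring, sub_self]
      exact Submodule.zero_mem _
    · rw [hLΛ]
      have h1 : diag n (spec n H) (fun j => ((j - n : ℤ) : ℚ)) = H := hHd
      rw [h1, sub_self]
      exact Submodule.zero_mem _
  · rw [hHd]
    exact hpure

end Pool.Agent.Helper17.NN
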