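import Pool.Agent.Helper17.NN.Corr
import Pool.Agent.Helper17.NN.Lift
import Pool.Agent.Helper21.NN.Kunneth

/-!
# Q1 for `X × X` and the conjecture of Bloch and Beilinson
-/

set_option autoImplicit false

open CategoryTheory CategoryTheory.Limits

namespace Pool.Agent.Helper17.NN

universe u v w

namespace ChowTheory

variable {𝒱 : Type u} [Category.{v} 𝒱] {S : ChowTheory.{u, v, w} 𝒱} [HasBinaryProducts 𝒱]

section single

variable (hS : S.Standard) {X : 𝒱} {L : S.A X} {π : ℤ → S.A (X ⨯ X)} {Λ : S.A (X ⨯ X)}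

/-- the relations in the ring of correspondences -/
theorem rel_of_standardB (hK : S.StandardB L π Λ) :
    Rel (homCorr hS X) (S.dim X) (fun j => toCorr hS X (π j)) (toCorr hS X (S.mulBy L))
      (toCorr hS X Λ) where
  sum := hK.sum_π
  idem := fun j => hK.π_idem j
  orth := fun j k hjk => by
    have h := hK.π_orth j k hjk
    rw [HomEq, sub_zero] at h
    exact h
  L_P := fun j => hK.L_π j
  Λ_P := fun j => hK.Λ_π j
  comm := hK.comm

/-- exact relations -/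
theorem exact_of_rel {P : ℤ → Corr hS X} {Λ' : Corr hS X} (hP : ∀ j, P j ∈ grCorr hS X 0)
    (hΛ : Λ' ∈ grCorr hS X (-1)) (h : Rel ⊥ (S.dim X) P (toCorr hS X (S.mulBy L)) Λ') :
    S.LefschetzDecomposition (fun a b => a = b) L P Λ' where
  π_gr := fun j => by
    have h1 : (P j : S.A (X ⨯ X)) ∈ S.grZ (X ⨯ X) (S.dim X + 0) := hP j
    rw [add_zero] at h1
    exact mem_grZ_iff.1 h1
  Λ_gr := hΛ
  sum_π := sub_eq_zero.1 ((Submodule.mem_bot ℚ).1 h.sum)
  π_idem := fun j => sub_eq_zero.1 ((Submodule.mem_bot ℚ).1 (h.idem j))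
  π_orth := fun j k hjk => (Submodule.mem_bot ℚ).1 (h.orth j k hjk)
  L_π := fun j => sub_eq_zero.1 ((Submodule.mem_bot ℚ).1 (h.L_P j))
  Λ_π := fun j => sub_eq_zero.1 ((Submodule.mem_bot ℚ).1 (h.Λ_P j))
  comm := sub_eq_zero.1 ((Submodule.mem_bot ℚ).1 h.comm)

variable (hL : S.Ample L) (hK : S.StandardB L π Λ) (hN : S.NoPhantom X)
  (hQ : S.Lefschetz (S.box L))

include hS hL hK hN hQ

/-- composites of correspondences homologous to zero vanish -/
theorem comp_eq_zero {a b : ℤ} {Γ Δ : S.A (X ⨯ X)} (hΓ : Γ ∈ S.hgr (X ⨯ X) a)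
    (hΔ : Δ ∈ S.hgr (X ⨯ X) b) : S.comp Γ Δ = 0 := by
  obtain ⟨P', Λ', -, -, -, -, -, -, hJJ⟩ := exact_lift (graded hS (hS.ample_gr hL) hN hQ)
    (fun j => by
      rw [mem_grCorr, add_zero]
      exact mem_grZ_iff.2 (hK.π_gr j)) hK.Λ_gr (rel_of_standardB hS hK)
  refine hJJ (b - S.dim X) (a - S.dim X) (toCorr hS X Δ) (toCorr hS X Γ) ?_ hΔ.2 ?_ hΓ.2
  · rw [mem_grCorr, add_sub_cancel]
    exact hΔ.1
  · rw [mem_grCorr, add_sub_cancel]
    exact hΓ.1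

/-- correspondences homologous to zero act as zero -/
theorem act_eq_zero {a i : ℤ} {Γ : S.A (X ⨯ X)} (hΓ : Γ ∈ S.hgr (X ⨯ X) a) {x : S.A X}
    (hx : x ∈ S.hgr X i) : S.act Γ x = 0 := by
  have h1 : S.mulBy x ∈ S.hgr (X ⨯ X) (i + S.dim X) :=
    ⟨mulBy_mem_grZ hS hx.1, hS.push_hom _ _ hx.2⟩
  have h2 := comp_eq_zero hS hL hK hN hQ h1 hΓ
  rw [mulBy_comp hS] at h2
  rw [act, mul_comm, h2, map_zero]

theorem productsVanish : S.ProductsVanish X := by
  intro i j x hx y hy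
  have hm : ∀ {k : ℕ} {z : S.A X}, z ∈ S.homGr X k → S.mulBy z ∈ S.hgr (X ⨯ X) (k + S.dim X) :=
    fun hz => ⟨mulBy_mem_grZ hS (mem_grZ_iff.2 hz.1), hS.push_hom _ _ hz.2⟩
  have h2 := comp_eq_zero hS hL hK hN hQ (hm hy) (hm hx)
  have h3 : S.act (S.comp (S.mulBy y) (S.mulBy x)) 1 = x * y := by
    rw [act_comp hS, act_mulBy hS, act_mulBy hS, mul_one]
  rw [← h3, h2, zero_act]

/-- `H` acts as `2 i - 1 - dim X` on the cycles of codimension `i` homologous to zero -/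
theorem act_H {i : ℕ} {x : S.A X} (hx : x ∈ S.homGr X i) :
    ∑ j ∈ Finset.Icc (0 : ℤ) (2 * (S.dim X : ℤ)), ((j - S.dim X : ℤ) : ℚ) • S.act (π j) x =
      (2 * i - 1 - S.dim X : ℚ) • x := by
  obtain ⟨P', Λ', hP0, hPJ, hΛ0, -, hR, hpure, -⟩ := exact_lift
    (graded hS (hS.ample_gr hL) hN hQ)
    (fun j => by
      rw [mem_grCorr, add_zero]
      exact mem_grZ_iff.2 (hK.π_gr j)) hK.Λ_gr (rel_of_standardB hS hK)
  have hP' : Proj (S.dim X) P' :=
    { sum := sub_eq_zero.1 ((Submodule.mem_bot ℚ).1 hR.sum)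
      idem := fun j => sub_eq_zero.1 ((Submodule.mem_bot ℚ).1 (hR.idem j))
      orth := fun j k hjk => (Submodule.mem_bot ℚ).1 (hR.orth j k hjk) }
  -- `H` and its weight on the fundamental class
  set H : Corr hS X := Pool.Agent.Helper17.NN.diag (S.dim X) P' (wt (S.dim X)) with hH
  have hH0 : (H : S.A (X ⨯ X)) ∈ S.grZ (X ⨯ X) (S.dim X) := by
    have h1 : H ∈ grCorr hS X 0 := Submodule.sum_mem _ fun j _ => Submodule.smul_mem _ _ (hP0 j)
    have h2 : (H : S.A (X ⨯ X)) ∈ S.grZ (X ⨯ X) (S.dim X + 0) := h1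
    rwa [add_zero] at h2
  -- the eigenvalue on the fundamental class
  obtain ⟨μ, hμ⟩ : ∃ μ : ℚ, S.comp (X := X) (Y := X) (Z := X) H 1 = μ • (1 : S.A (X ⨯ X)) := by
    have h1 : (1 : S.A (X ⨯ X)) ∈ S.grZ (X ⨯ X) ((0 : ℕ) : ℤ) := mem_grZ_iff.2 (hS.one_mem _)
    have h2 : S.comp (X := X) (Y := X) (Z := X) H 1 ∈ S.grZ (X ⨯ X) ((0 : ℕ) : ℤ) :=
      comp_mem_grZ hS hH0 h1 (by push_cast; ring)
    obtain ⟨μ, h3⟩ := hS.gr_zero (mem_grZ_iff.1 h2)
    exact ⟨μ, by rw [h3, Algebra.algebraMap_eq_smul_one]⟩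
  -- products with `L`
  have hmulL : ∀ w : S.A (X ⨯ X), toCorr hS X w * toCorr hS X (S.mulBy L) =
      toCorr hS X (S.pull (prod.fst : X ⨯ X ⟶ X) L * w) := fun w =>
    congrArg (toCorr hS X) (mulBy_comp hS L w)
  have hmulLk : ∀ k : ℕ, toCorr hS X (1 : S.A (X ⨯ X)) * toCorr hS X (S.mulBy L) ^ k =
      toCorr hS X (S.pull (prod.fst : X ⨯ X ⟶ X) (L ^ k)) := by
    intro k
    induction k with
    | zero => rw [pow_zero, pow_zero, mul_one, map_one]
    | succ k ih => rw [pow_succ, ← mul_assoc, ih, hmulL, pow_succ', map_mul]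
  have hne : S.pull (prod.fst : X ⨯ X ⟶ X) (L ^ S.dim X) ≠ 0 := by
    intro h
    have h1 := congrArg (S.pull (prod.lift (𝟙 X) (𝟙 X))) h
    rw [← hS.pull_comp, prod.lift_fst, hS.pull_id, map_zero] at h1
    exact hS.ample_pow hL h1
  have hne1 : toCorr hS X (1 : S.A (X ⨯ X)) ≠ 0 := by
    intro h
    apply hne
    have h1 := hmulLk (S.dim X)
    rw [h, zero_mul] at h1
    exact h1.symm
  have hone : toCorr hS X (1 : S.A (X ⨯ X)) * H = μ • toCorr hS X (1 : S.A (X ⨯ X)) := hμ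
  have hHL : toCorr hS X (S.mulBy L) * H =
      H * toCorr hS X (S.mulBy L) - (2 : ℚ) • toCorr hS X (S.mulBy L) := by
    obtain ⟨-, -, h3, -⟩ := exact_relations hP' (L := toCorr hS X (S.mulBy L)) (Λ := Λ')
      (fun j => sub_eq_zero.1 ((Submodule.mem_bot ℚ).1 (hR.L_P j)))
      (fun j => sub_eq_zero.1 ((Submodule.mem_bot ℚ).1 (hR.Λ_P j)))
    have h4 : H * toCorr hS X (S.mulBy L) - toCorr hS X (S.mulBy L) * H =
        (2 : ℚ) • toCorr hS X (S.mulBy L) := h3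
    rw [← h4, sub_sub_cancel]
  have hLk : ∀ k : ℕ, (toCorr hS X (1 : S.A (X ⨯ X)) * toCorr hS X (S.mulBy L) ^ k) * H =
      (μ - 2 * k) • (toCorr hS X (1 : S.A (X ⨯ X)) * toCorr hS X (S.mulBy L) ^ k) := by
    intro k
    induction k with
    | zero => rw [pow_zero, mul_one, hone]; simp
    | succ k ih =>
      rw [pow_succ, ← mul_assoc (toCorr hS X (1 : S.A (X ⨯ X))), mul_assoc _ _ H, hHL, mul_sub,
        ← mul_assoc _ H, ih, mul_smul_comm, smul_mul_assoc, ← sub_smul]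
      congr 1
      push_cast
      ring
  have hμn : μ = S.dim X := by
    obtain ⟨j, hj, hj2⟩ := exists_eigenvalue hP' hne1 hone
    have hv : toCorr hS X (1 : S.A (X ⨯ X)) * toCorr hS X (S.mulBy L) ^ S.dim X ≠ 0 := by
      rw [hmulLk]
      exact hne
    obtain ⟨k, hk, hk2⟩ := exists_eigenvalue hP' hv (hLk (S.dim X))
    rw [Finset.mem_Icc] at hj hk
    have h1 : μ = ((j - S.dim X : ℤ) : ℚ) := hj2
    have h2 : μ - 2 * (S.dim X : ℚ) = ((k - S.dim X : ℤ) : ℚ) := hk2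
    have h3 : (j - S.dim X : ℤ) - 2 * S.dim X = k - S.dim X := by
      rw [h1] at h2
      exact_mod_cast h2
    have h4 : j = 2 * S.dim X := by omega
    rw [h1, h4]
    push_cast
    ring
  -- the correspondence `1 × x`
  have hcJ : S.pull (prod.snd : X ⨯ X ⟶ X) x ∈ S.hom (X ⨯ X) := hS.pull_hom _ _ hx.2
  have hc0 : toCorr hS X (S.pull (prod.snd : X ⨯ X ⟶ X) x) ∈ grCorr hS X (i - S.dim X) := by
    rw [mem_grCorr, add_sub_cancel]
    exact mem_grZ_iff.2 (hS.pull_gr _ _ _ hx.1)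
  have h1 := hpure _ _ hc0 hcJ
  have h2 : H * toCorr hS X (S.pull (prod.snd : X ⨯ X ⟶ X) x) =
      toCorr hS X (S.pull (prod.snd : X ⨯ X ⟶ X) (S.act (X := X) (Y := X) H x)) :=
    congrArg (toCorr hS X) (snd_comp hS x H)
  have h3 : toCorr hS X (S.pull (prod.snd : X ⨯ X ⟶ X) x) * H =
      (S.dim X : ℚ) • toCorr hS X (S.pull (prod.snd : X ⨯ X ⟶ X) x) := by
    have h4 : S.comp (X := X) (Y := X) (Z := X) H (1 * S.pull (prod.snd : X ⨯ X ⟶ X) x) =
        S.comp (X := X) (Y := X) (Z := X) H 1 * S.pull (prod.snd : X ⨯ X ⟶ X) x :=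
      comp_mul_snd hS _ _ _
    rw [one_mul, hμ, smul_mul_assoc, one_mul, hμn] at h4
    exact h4
  have h5 : S.pull (prod.snd : X ⨯ X ⟶ X) (S.act (X := X) (Y := X) H x) -
      (S.dim X : ℚ) • S.pull (prod.snd : X ⨯ X ⟶ X) x =
        (2 * ((i - S.dim X : ℤ) : ℚ) - 1) • S.pull (prod.snd : X ⨯ X ⟶ X) x := by
    rw [h2, h3] at h1
    exact h1
  have h6 : S.act (X := X) (Y := X) H x = (2 * i - 1 - S.dim X : ℚ) • x := by
    have h7 := congrArg (S.pull (prod.lift (𝟙 X) (𝟙 X))) h5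
    rw [map_sub, map_smul, map_smul, ← hS.pull_comp, ← hS.pull_comp, prod.lift_snd, hS.pull_id,
      hS.pull_id, sub_eq_iff_eq_add, ← add_smul] at h7
    rw [h7]
    congr 1
    push_cast
    ring
  -- `π j` and `P' j` act in the same way
  rw [← h6, hH]
  have h8 : S.act (X := X) (Y := X) (Pool.Agent.Helper17.NN.diag (S.dim X) P' (wt (S.dim X))) x =
      ∑ j ∈ Finset.Icc (0 : ℤ) (2 * (S.dim X : ℤ)),
        wt (S.dim X) j • S.act (X := X) (Y := X) (P' j) x := by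
    have h9 : S.act (X := X) (Y := X) (Pool.Agent.Helper17.NN.diag (S.dim X) P' (wt (S.dim X))) x =
        S.act (∑ j ∈ Finset.Icc (0 : ℤ) (2 * (S.dim X : ℤ)),
          wt (S.dim X) j • (P' j : S.A (X ⨯ X))) x := rfl
    rw [h9, act_sum]
    exact Finset.sum_congr rfl fun j _ => act_smul_left _ _ _
  refine Eq.trans (Finset.sum_congr rfl fun j _ => ?_) h8.symm
  have h9 : S.act (X := X) (Y := X) (P' j) x = S.act (π j) x := by
    rw [← sub_eq_zero, ← act_sub]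
    refine act_eq_zero hS hL hK hN hQ (a := S.dim X) ⟨?_, hPJ j⟩ (mem_hgr_iff.2 hx)
    have h10 : (P' j : S.A (X ⨯ X)) ∈ S.grZ (X ⨯ X) (S.dim X + 0) := hP0 j
    rw [add_zero] at h10
    exact Submodule.sub_mem _ h10 (mem_grZ_iff.2 (hK.π_gr j))
  rw [h9]
  rfl

omit hS hL hK hN hQ in
/-- from the weights to the projector `π_(2 i - 1)` -/
theorem pure_of_weights (hS : S.Standard) (hK : S.StandardB L π Λ)
    (h0 : ∀ a : ℕ, ∀ Γ ∈ S.homGr (X ⨯ X) a, ∀ i : ℕ, ∀ x ∈ S.homGr X i, S.act Γ x = 0)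
    (hL1 : L ∈ S.gr X 1) {i : ℕ} {x : S.A X} (hx : x ∈ S.homGr X i)
    (hw : ∑ j ∈ Finset.Icc (0 : ℤ) (2 * (S.dim X : ℤ)), ((j - S.dim X : ℤ) : ℚ) • S.act (π j) x =
      (2 * i - 1 - S.dim X : ℚ) • x) : S.act (π (2 * (i : ℤ) - 1)) x = x := by
  have hk := Pool.Agent.Helper21.NN.kunneth hS h0 hL1 hK
  have hx' : x ∈ Pool.Agent.Helper21.NN.hgr S X i := Pool.Agent.Helper21.NN.mem_hgr_nat.2 hx
  have hsum : ∑ j ∈ Finset.Icc (0 : ℤ) (2 * (S.dim X : ℤ)), S.act (π j) x = x :=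
    hk.sum_π i x hx'
  have hz : ∀ k ∈ Finset.Icc (0 : ℤ) (2 * (S.dim X : ℤ)), k ≠ 2 * i - 1 →
      S.act (π k) x = 0 := by
    intro k hk1 hk2
    have h1 : S.act (π k) (∑ j ∈ Finset.Icc (0 : ℤ) (2 * (S.dim X : ℤ)),
        ((j - S.dim X : ℤ) : ℚ) • S.act (π j) x) = ((k - S.dim X : ℤ) : ℚ) • S.act (π k) x := by
      rw [← actL_apply, map_sum, Finset.sum_eq_single_of_mem k hk1]
      · rw [map_smul, actL_apply]
        congr 1
        exact hk.π_idem i k x hx'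
      · intro j _ hj
        rw [map_smul, actL_apply]
        have h2 : S.act (π k) (S.act (π j) x) = 0 := hk.π_orth i k j (Ne.symm hj) x hx'
        rw [h2, smul_zero]
    rw [hw, ← actL_apply, map_smul, actL_apply, ← sub_eq_zero, ← sub_smul] at h1
    rcases smul_eq_zero.1 h1 with h2 | h2
    · exfalso
      apply hk2
      have h3 : ((2 * (i : ℤ) - 1 - S.dim X - (k - S.dim X) : ℤ) : ℚ) = 0 := by
        push_cast
        push_cast at h2
        exact h2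
      have h4 : (2 * (i : ℤ) - 1 - S.dim X - (k - S.dim X) : ℤ) = 0 := by exact_mod_cast h3
      omega
    · exact h2
  by_cases hr : 2 * (i : ℤ) - 1 ∈ Finset.Icc (0 : ℤ) (2 * (S.dim X : ℤ))
  · rwa [Finset.sum_eq_single_of_mem _ hr (fun j hj hne => hz j hj hne)] at hsum
  · rw [Finset.sum_eq_zero fun j hj => hz j hj fun h => hr (h ▸ hj)] at hsum
    rw [← hsum, act_zero]

/-- purity: `π_(2 i - 1)` is the identity on the cycles of codimension `i` homologous to zero -/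
theorem pure {i : ℕ} {x : S.A X} (hx : x ∈ S.homGr X i) :
    S.act (π (2 * (i : ℤ) - 1)) x = x :=
  pure_of_weights hS hK (fun a _ hΓ i _ hx => act_eq_zero hS hL hK hN hQ (a := a) (i := i)
    (mem_hgr_iff.2 hΓ) (mem_hgr_iff.2 hx)) (hS.ample_gr hL) hx (act_H hS hL hK hN hQ hx)

/-- **Theorem**, one variety. -/
theorem single_variety :
    S.CompositesVanish X ∧ S.ProductsVanish X ∧ S.BlochBeilinsonFor X X π ∧ S.LefschetzAll π := by
  have h0 : ∀ a : ℕ, ∀ Γ ∈ S.homGr (X ⨯ X) a, ∀ i : ℕ, ∀ x ∈ S.homGr X i, S.act Γ x = 0 :=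
    fun a _ hΓ i _ hx => act_eq_zero hS hL hK hN hQ (a := a) (i := i)
      (mem_hgr_iff.2 hΓ) (mem_hgr_iff.2 hx)
  have hp : ∀ i : ℕ, ∀ x ∈ S.homGr X i, S.act (π (2 * (i : ℤ) - 1)) x = x :=
    fun _ _ hx => pure hS hL hK hN hQ hx
  exact ⟨fun _ _ _ hΓ _ hΔ => comp_eq_zero hS hL hK hN hQ (mem_hgr_iff.2 hΓ) (mem_hgr_iff.2 hΔ),
    productsVanish hS hL hK hN hQ, Pool.Agent.Helper21.NN.blochBeilinsonFor_of hS hK h0 hp,
    fun M Λ' hM hKM => (Pool.Agent.Helper21.NN.lefschetz_iff hS h0 (hS.ample_gr hM) hKM).2 hp⟩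

end single

end ChowTheory

end Pool.Agent.Helper17.NN
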